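import Pool.Agent.Helper74.NE.Defs

/-!
# Phases: definitions

The network is the one of `Helper74.NE`, with rows `0, …, R + 1`; the cell `b` contains the word `I b` and one more entry
`γ b : G`, which is used by the result only. A program which is cut into `w + 1` windows.
-/

namespace Pool.Agent.Helper96.PH

open Pool.Agent.Helper19.NF Pool.Agent.Helper74.NW Pool.Agent.Helper74.NE

/-- The list can be cut into `W` parts, each of which has at most `T` different elements. -/
def Cut {C : Type} (T W : ℕ) (l : List C) : Prop :=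
  ∃ p : List (List C), p.length = W ∧ p.flatten = l ∧ ∀ x ∈ p, Nat.card {c // c ∈ x} ≤ T

/-- A deterministic program: at most one next state. -/
def Det {C W Z : Type} {S : ℕ} (P : NProg C W Z S) : Prop :=
  ∀ s c next, P.act s = Sum.inl (c, next) → ∀ x, (next x).Subsingleton

/-- An unambiguous program: on every input at most one computation reaches a final state. -/
def Unamb {C W Z : Type} {S : ℕ} (P : NProg C W Z S) : Prop :=
  ∀ (I : C → W) (a a' b b' : List C) (q q' t t' : Fin S) (z z' : Z), P.Run I P.start a q → P.Run I q b t →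
    P.act t = Sum.inr z → P.Run I P.start a' q' → P.Run I q' b' t' → P.act t' = Sum.inr z' →
    a.length = a'.length → a = a' ∧ q = q'

/-- The program on the first entries, when the second entries of the cells are given by `γ`. -/
def fix {C W Z G : Type} {S : ℕ} (P : NProg C (W × G) Z S) (γ : C → G) : NProg C W Z S where
  start := P.start
  act := fun s => (P.act s).map (fun t => (t.1, fun x => t.2 (x, γ t.1))) id

/-- The window `x`, which ends in the state `s`, has at most `T` different cells and cannot be continued with at most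
`T` different cells. -/
def Greedy {C W Z : Type} {S : ℕ} (P : NProg C W Z S) (T : ℕ) (s : Fin S) (x : List C) : Prop :=
  Nat.card {c // c ∈ x} ≤ T ∧ ∀ c next, P.act s = Sum.inl (c, next) → T < Nat.card {b // b ∈ c :: x}

/-- Cylinder lemma with the error `E` for the function `γ`: if `C l` does not depend on the coordinate number `l` of
`y`, then on the intersection of the `C l` the sum of the values of `γ` is nearly uniformly distributed. -/
def CB {B G : Type} [AddCommGroup B] [AddCommGroup G] (γ : B → G) (ι : Type) [Fintype ι] (w : ℕ) (E : ℝ) : Prop :=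
  ∀ (x : ι → B) (C : Fin (w + 1) → Set (Fin (w + 1) → ι → B)),
    (∀ l y z, y ∈ C l → Function.update y l z ∈ C l) → ∀ a : G,
      (Nat.card {y : Fin (w + 1) → ι → B // (∀ l, y ∈ C l) ∧ ∑ c, γ (x c + ∑ l, y l c) = a} : ℝ) ≤
        Nat.card {y : Fin (w + 1) → ι → B // ∀ l, y ∈ C l} / Nat.card G + E * Nat.card (Fin (w + 1) → ι → B)

/-- The error. -/
noncomputable def err (B G : Type) (n d m a R w S : ℕ) (ε : ℝ) : ℝ :=
  ((R + 1) * (n * m)) ^ 2 / Nat.card B + Nat.card G * 2 ^ (w + 1) / Real.sqrt (Nat.card B) +
    R * n.choose a * ((d * m) ^ a) ^ 2 * (S : ℝ) ^ 3 * (2 / (1 + ε / 2) ^ (a * m)) +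
    2 * (S * (d * m + 1) ^ n) ^ (w + 1) * (Nat.card B : ℝ) ^ (-((n - (w + 1) * a : ℕ) * m : ℝ) / 2 ^ (w + 2))

variable {n d m : ℕ} {B G Z : Type} [AddCommGroup B] [AddCommGroup G] [NeZero m] {S : ℕ}

/-- The result, for given second entries `γ`: the sum of the second entries of the cells of the row `R + 1`. -/
def gout (g : Fin d → Equiv.Perm (Fin n)) (x0 : Fin n × Fin m → B) (R : ℕ) (γ : B → G)
    (I : B → Fin d × Fin m → B) : G := ∑ v, γ (val (fine g) x0 I (R + 1) v)

/-- The result. -/
def out (g : Fin d → Equiv.Perm (Fin n)) (x0 : Fin n × Fin m → B) (R : ℕ)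
    (J : B → (Fin d × Fin m → B) × G) : G := ∑ v, (J (val (fine g) x0 (fun b => (J b).1) (R + 1) v)).2

open Classical in
/-- A letter of row `i` used by the node `v` of row `i + 1` and not queried in the list, if there is one. -/
noncomputable def miss (g : Fin d → Equiv.Perm (Fin n)) (x0 : Fin n × Fin m → B) (I : B → Fin d × Fin m → B) (i : ℕ)
    (l : List B) (v : Fin n) : Option (Fin d × Fin m) :=
  if h : ∃ c : Fin d × Fin m, val (fine g) x0 I i (g c.1 v, c.2) ∉ l then some h.choose else none

/-- For every `l` there is a run from the state `σ l` to the state `σ (l + 1)` with the property `Q l` and the missing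
letters `τ l`. -/
def InT (P : NProg B (Fin d × Fin m → B) Z S) (g : Fin d → Equiv.Perm (Fin n)) (x0 : Fin n × Fin m → B) (R : ℕ)
    {w : ℕ} (σ : Fin (w + 2) → Fin S) (τ : Fin (w + 1) → Fin n → Option (Fin d × Fin m))
    (Q : Fin (w + 1) → List B → Prop) (I : B → Fin d × Fin m → B) : Prop :=
  ∀ l : Fin (w + 1), ∃ x : List B, P.Run I (σ l.castSucc) x (σ l.succ) ∧ Q l x ∧ ∀ v, miss g x0 I R x v = τ l v

/-- The nodes which miss a letter in each window. -/
def opn {w : ℕ} (τ : Fin (w + 1) → Fin n → Option (Fin d × Fin m)) : Finset (Fin n) :=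
  Finset.univ.filter (fun v => ∀ l, (τ l v).isSome)

end Pool.Agent.Helper96.PH
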