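import Pool.Agent.Helper96.PH.Defs
import Pool.Agent.Helper96.NE.Two

/-!
# The inputs of one type
-/

namespace Pool.Agent.Helper96.PH

open Pool.Agent.Helper19.NF Pool.Agent.Helper74.NW Pool.Agent.Helper74.NE
open Pool.Agent.Helper96.NE (chg_of_not val_chg)

variable {n d m : ℕ} {B G Z : Type} [AddCommGroup B] [AddCommGroup G] [NeZero m] {S : ℕ}
variable {g : Fin d → Equiv.Perm (Fin n)} {x0 : Fin n × Fin m → B} {R p w : ℕ} {u : Fin p → Fin n}
variable {r : Fin (w + 1) → Fin p → Fin d × Fin m} {I : B → Fin d × Fin m → B}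

/-- The change of the contents of the holes `r l` by `y l`, for all `l`. -/
noncomputable def shw (g : Fin d → Equiv.Perm (Fin n)) (x0 : Fin n × Fin m → B) (R : ℕ) (u : Fin p → Fin n)
    (r : Fin (w + 1) → Fin p → Fin d × Fin m) (y : Fin (w + 1) → Fin p × Fin m → B)
    (I : B → Fin d × Fin m → B) : B → Fin d × Fin m → B :=
  I + ∑ l, chg g x0 R u (r l) (y l) I

theorem sum_chg_ne {y : Fin (w + 1) → Fin p × Fin m → B} (b : B)
    (hb : (∑ l, chg g x0 R u (r l) (y l) I) b ≠ 0) : ∃ v, b = val (fine g) x0 I R v := by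
  by_contra hc
  apply hb
  rw [Finset.sum_apply]
  exact Finset.sum_eq_zero fun l _ => chg_of_not fun j hj => hc ⟨_, hj⟩

theorem val_shw_le (hI : CF (fine g) x0 R I) (y : Fin (w + 1) → Fin p × Fin m → B) {i : ℕ} (hi : i ≤ R)
    (v : Fin n × Fin m) : val (fine g) x0 (shw g x0 R u r y I) i v = val (fine g) x0 I i v :=
  val_add hI _ sum_chg_ne i hi v

theorem CF_shw (hI : CF (fine g) x0 R I) (y : Fin (w + 1) → Fin p × Fin m → B) :
    CF (fine g) x0 R (shw g x0 R u r y I) := CF_add hI _ sum_chg_ne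

theorem val_shw (hI : CF (fine g) x0 R I) (y : Fin (w + 1) → Fin p × Fin m → B) (v : Fin n) (t : Fin m) :
    val (fine g) x0 (shw g x0 R u r y I) (R + 1) (v, t) =
      val (fine g) x0 I (R + 1) (v, t) + ∑ l, ∑ j, if u j = v then y l (j, t) else 0 := by
  unfold shw
  rw [val_add_succ hI _ sum_chg_ne]
  congr 1
  have h1 : ∀ l, ∑ c, chg g x0 R u (r l) (y l) I (val (fine g) x0 I R (fine g c (v, t))) c =
      ∑ j, if u j = v then y l (j, t) else 0 := by
    intro l
    have h2 := val_chg (u := u) (r := r l) hI (y l) v t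
    rw [val_add_succ hI _ Pool.Agent.Helper96.NE.chg_ne] at h2
    exact add_left_cancel h2
  simp only [Finset.sum_apply]
  rw [Finset.sum_comm]
  exact Finset.sum_congr rfl fun l _ => h1 l

theorem chg_shw (hI : CF (fine g) x0 R I) (y : Fin (w + 1) → Fin p × Fin m → B) (ρ : Fin p → Fin d × Fin m)
    (z : Fin p × Fin m → B) : chg g x0 R u ρ z (shw g x0 R u r y I) = chg g x0 R u ρ z I := by
  classical
  have h1 : ∀ j, hole g x0 R u ρ (shw g x0 R u r y I) j = hole g x0 R u ρ I j := by
    intro j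
    unfold hole
    exact val_shw_le hI y le_rfl _
  funext b c
  show (∑ j, ∑ t, if b = hole g x0 R u ρ (shw g x0 R u r y I) j ∧ c = ((ρ j).1, (ρ j).2 - t)
    then z (j, t) else 0) = ∑ j, ∑ t, if b = hole g x0 R u ρ I j ∧ c = ((ρ j).1, (ρ j).2 - t)
    then z (j, t) else 0
  simp only [h1]

theorem chg_neg (ρ : Fin p → Fin d × Fin m) (y : Fin p × Fin m → B) :
    chg g x0 R u ρ (-y) I = -chg g x0 R u ρ y I := by
  classical
  funext b c
  rw [Pi.neg_apply, Pi.neg_apply]
  unfold chg
  rw [← Finset.sum_neg_distrib]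
  refine Finset.sum_congr rfl fun j _ => ?_
  rw [← Finset.sum_neg_distrib]
  refine Finset.sum_congr rfl fun t _ => ?_
  split_ifs
  · rfl
  · rw [neg_zero]

theorem shw_neg (hI : CF (fine g) x0 R I) (y : Fin (w + 1) → Fin p × Fin m → B) :
    shw g x0 R u r (-y) (shw g x0 R u r y I) = I := by
  have h1 : ∑ l, chg g x0 R u (r l) ((-y) l) (shw g x0 R u r y I) = -∑ l, chg g x0 R u (r l) (y l) I := by
    rw [← Finset.sum_neg_distrib]
    refine Finset.sum_congr rfl fun l _ => ?_
    rw [chg_shw hI, Pi.neg_apply, chg_neg]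
  rw [shw, h1]
  unfold shw
  rw [add_assoc, add_neg_cancel, add_zero]

theorem shw_neg' (hI : CF (fine g) x0 R I) (y : Fin (w + 1) → Fin p × Fin m → B) :
    shw g x0 R u r y (shw g x0 R u r (-y) I) = I := by
  have h := shw_neg (u := u) (r := r) hI (-y)
  rwa [neg_neg] at h

theorem shw_update {y : Fin (w + 1) → Fin p × Fin m → B} (l : Fin (w + 1)) (z : Fin p × Fin m → B) {b : B}
    (hb : ∀ j, b ≠ hole g x0 R u (r l) I j) :
    shw g x0 R u r (Function.update y l z) I b = shw g x0 R u r y I b := by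
  unfold shw
  rw [Pi.add_apply, Pi.add_apply, Finset.sum_apply, Finset.sum_apply]
  congr 1
  refine Finset.sum_congr rfl fun l' _ => ?_
  by_cases h : l' = l
  · subst h
    rw [chg_of_not hb, chg_of_not hb]
  · rw [Function.update_of_ne h]

theorem miss_shw (hI : CF (fine g) x0 R I) (y : Fin (w + 1) → Fin p × Fin m → B) (x : List B) (v : Fin n) :
    miss g x0 (shw g x0 R u r y I) R x v = miss g x0 I R x v := by
  have h1 : val (fine g) x0 (shw g x0 R u r y I) R = val (fine g) x0 I R :=
    funext fun v => val_shw_le hI y le_rfl v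
  unfold miss
  rw [h1]

theorem of_miss {l : List B} {v : Fin n} {c : Fin d × Fin m} (h : miss g x0 I R l v = some c) :
    val (fine g) x0 I R (g c.1 v, c.2) ∉ l := by
  unfold miss at h
  split_ifs at h with h1
  have h2 := h1.choose_spec
  rw [Option.some.injEq] at h
  rwa [h] at h2

/-- The result after the change. -/
theorem gout_shw (hI : CF (fine g) x0 R I) (hu : Function.Injective u) (γ : B → G)
    (y : Fin (w + 1) → Fin p × Fin m → B) :
    gout g x0 R γ (shw g x0 R u r y I) =
      ∑ v ∈ Finset.univ.filter (fun v : Fin n × Fin m => v.1 ∉ Set.range u), γ (val (fine g) x0 I (R + 1) v) +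
        ∑ c : Fin p × Fin m, γ (val (fine g) x0 I (R + 1) (u c.1, c.2) + ∑ l, y l c) := by
  classical
  unfold gout
  rw [← Finset.sum_filter_not_add_sum_filter Finset.univ (fun v : Fin n × Fin m => v.1 ∈ Set.range u)]
  congr 1
  · refine Finset.sum_congr rfl fun v hv => ?_
    have h1 : v.1 ∉ Set.range u := (Finset.mem_filter.mp hv).2
    obtain ⟨v, t⟩ := v
    rw [val_shw hI]
    congr 1
    have h2 : (∑ l, ∑ j, if u j = v then y l (j, t) else 0) = 0 := by
      refine Finset.sum_eq_zero fun l _ => Finset.sum_eq_zero fun j _ => ?_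
      rw [if_neg]
      intro h3
      exact h1 ⟨j, h3⟩
    rw [h2, add_zero]
  · refine (Finset.sum_nbij (fun c : Fin p × Fin m => (u c.1, c.2)) ?_ ?_ ?_ ?_).symm
    · intro c _
      exact Finset.mem_filter.mpr ⟨Finset.mem_univ _, ⟨c.1, rfl⟩⟩
    · intro c _ c' _ h
      rw [Prod.mk.injEq] at h
      exact Prod.ext (hu h.1) h.2
    · rintro ⟨v, t⟩ hv
      obtain ⟨j, hj⟩ := (Finset.mem_filter.mp (Finset.mem_coe.mp hv)).2
      exact ⟨(j, t), Finset.mem_coe.mpr (Finset.mem_univ _), Prod.ext hj rfl⟩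
    · intro c _
      congr 1
      show _ = val (fine g) x0 (shw g x0 R u r y I) (R + 1) (u c.1, c.2)
      rw [val_shw hI]
      congr 1
      refine Finset.sum_congr rfl fun l _ => ?_
      rw [Finset.sum_eq_single c.1]
      · rw [if_pos rfl]
      · intro j' _ hj'
        rw [if_neg fun h5 => hj' (hu h5)]
      · intro h5
        exact (h5 (Finset.mem_univ _)).elim

open Classical in
/-- The average over the changes. -/
theorem card_avg [Fintype B] (A : (B → Fin d × Fin m → B) → Prop) :
    Nat.card {I : B → Fin d × Fin m → B // CF (fine g) x0 R I ∧ A I} *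
        Nat.card (Fin (w + 1) → Fin p × Fin m → B) =
      ∑ I : {I : B → Fin d × Fin m → B // CF (fine g) x0 R I},
        Nat.card {y : Fin (w + 1) → Fin p × Fin m → B // A (shw g x0 R u r y I.1)} := by
  let V : Type := B → Fin d × Fin m → B
  let Y : Type := Fin (w + 1) → Fin p × Fin m → B
  have e1 : {I : V // CF (fine g) x0 R I ∧ A I} × Y ≃
      Σ I : {I : V // CF (fine g) x0 R I}, {y : Y // A (shw g x0 R u r y I.1)} :=
    { toFun := fun q => ⟨⟨shw g x0 R u r (-q.2) q.1.1, CF_shw q.1.2.1 _⟩, ⟨q.2, by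
        show A (shw g x0 R u r q.2 (shw g x0 R u r (-q.2) q.1.1))
        rw [shw_neg' q.1.2.1]
        exact q.1.2.2⟩⟩
      invFun := fun q => (⟨shw g x0 R u r q.2.1 q.1.1, CF_shw q.1.2 _, q.2.2⟩, q.2.1)
      left_inv := by
        rintro ⟨⟨I, hI, hA⟩, y⟩
        exact Prod.ext (Subtype.ext (shw_neg' hI y)) rfl
      right_inv := by
        rintro ⟨⟨I, hI⟩, ⟨y, hy⟩⟩
        have h1 : shw g x0 R u r (-y) (shw g x0 R u r y I) = I := shw_neg hI y
        refine Sigma.ext (Subtype.ext h1) ?_
        refine (Subtype.heq_iff_coe_eq ?_).mpr rfl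
        intro y'
        show A (shw g x0 R u r y' (shw g x0 R u r (-y) (shw g x0 R u r y I))) ↔ _
        rw [h1] }
  have h1 := Nat.card_congr e1
  rw [Nat.card_prod, Nat.card_sigma] at h1
  exact h1

/-- P5: the inputs of one type. -/
theorem type_bound [Fintype B] [Fintype G] {Z : Type} (P : NProg B (Fin d × Fin m → B) Z S)
    (g : Fin d → Equiv.Perm (Fin n)) (x0 : Fin n × Fin m → B) {R w : ℕ} {E : ℝ} (γ : B → G)
    (σ : Fin (w + 2) → Fin S) (τ : Fin (w + 1) → Fin n → Option (Fin d × Fin m))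
    (hE : CB γ (Fin (opn τ).card × Fin m) w E) (Q : Fin (w + 1) → List B → Prop) (a : G) :
    (Nat.card {I : B → Fin d × Fin m → B // CF (fine g) x0 R I ∧ InT P g x0 R σ τ Q I ∧
        gout g x0 R γ I = a} : ℝ) ≤
      Nat.card {I : B → Fin d × Fin m → B // CF (fine g) x0 R I ∧ InT P g x0 R σ τ Q I} / Nat.card G +
        E * Nat.card (B → Fin d × Fin m → B) := by
  classical
  set p := (opn τ).card with hp
  let u : Fin p → Fin n := (opn τ).orderEmbOfFin hp.symm
  have hu : Function.Injective u := ((opn τ).orderEmbOfFin hp.symm).injective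
  have hmem : ∀ l j, (τ l (u j)).isSome := by
    intro l j
    have h1 : u j ∈ opn τ := (opn τ).orderEmbOfFin_mem hp.symm j
    unfold opn at h1
    exact (Finset.mem_filter.mp h1).2 l
  let r : Fin (w + 1) → Fin p → Fin d × Fin m := fun l j => (τ l (u j)).get (hmem l j)
  have hr : ∀ l j, τ l (u j) = some (r l j) := fun l j => (Option.some_get (hmem l j)).symm
  have hY0 : (0 : ℝ) < Nat.card (Fin (w + 1) → Fin p × Fin m → B) := by
    exact_mod_cast Nat.card_pos
  have hE0 : 0 ≤ E := by
    have h1 := hE 0 (fun _ => ∅) (fun l y z h => h) 0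
    have h2 : IsEmpty {y : Fin (w + 1) → Fin p × Fin m → B // ∀ l : Fin (w + 1), y ∈ (∅ : Set _)} :=
      ⟨fun y => y.2 0⟩
    rw [Nat.card_of_isEmpty (α := {y : Fin (w + 1) → Fin p × Fin m → B // ∀ l : Fin (w + 1), y ∈ (∅ : Set _)})] at h1
    have h3 : (0 : ℝ) ≤ E * Nat.card (Fin (w + 1) → Fin p × Fin m → B) := by
      refine le_trans ?_ (h1.trans (le_of_eq ?_))
      · positivity
      · simp
    by_contra h4
    push Not at h4
    have := mul_neg_of_neg_of_pos h4 hY0
    linarith
  -- one class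
  have key : ∀ I : {I : B → Fin d × Fin m → B // CF (fine g) x0 R I},
      (Nat.card {y : Fin (w + 1) → Fin p × Fin m → B //
        InT P g x0 R σ τ Q (shw g x0 R u r y I.1) ∧ gout g x0 R γ (shw g x0 R u r y I.1) = a} : ℝ) ≤
      Nat.card {y : Fin (w + 1) → Fin p × Fin m → B // InT P g x0 R σ τ Q (shw g x0 R u r y I.1)} / Nat.card G +
        E * Nat.card (Fin (w + 1) → Fin p × Fin m → B) := by
    rintro ⟨I, hI⟩
    let C : Fin (w + 1) → Set (Fin (w + 1) → Fin p × Fin m → B) := fun l =>
      {y | ∃ x : List B, P.Run (shw g x0 R u r y I) (σ l.castSucc) x (σ l.succ) ∧ Q l x ∧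
        ∀ v, miss g x0 I R x v = τ l v}
    have hC : ∀ l y z, y ∈ C l → Function.update y l z ∈ C l := by
      rintro l y z ⟨x, h1, h2, h3⟩
      refine ⟨x, run_congr h1 fun b hb => ?_, h2, h3⟩
      refine (shw_update l z fun j hj => ?_).symm
      have h4 : miss g x0 I R x (u j) = some (r l j) := by rw [h3, hr]
      have h5 := of_miss h4
      rw [hj] at hb
      exact h5 hb
    have hin : ∀ y, InT P g x0 R σ τ Q (shw g x0 R u r y I) ↔ ∀ l, y ∈ C l := by
      intro y
      unfold InT
      simp only [miss_shw hI]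
      rfl
    have h1 := hE (fun c => val (fine g) x0 I (R + 1) (u c.1, c.2)) C hC
      (a - ∑ v ∈ Finset.univ.filter (fun v : Fin n × Fin m => v.1 ∉ Set.range u), γ (val (fine g) x0 I (R + 1) v))
    have h2 : ∀ y, (InT P g x0 R σ τ Q (shw g x0 R u r y I) ∧ gout g x0 R γ (shw g x0 R u r y I) = a) ↔
        ((∀ l, y ∈ C l) ∧ ∑ c : Fin p × Fin m, γ (val (fine g) x0 I (R + 1) (u c.1, c.2) + ∑ l, y l c) =
          a - ∑ v ∈ Finset.univ.filter (fun v : Fin n × Fin m => v.1 ∉ Set.range u),
            γ (val (fine g) x0 I (R + 1) v)) := by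
      intro y
      rw [hin y, gout_shw hI hu, eq_sub_iff_add_eq']
    rw [Nat.card_congr (Equiv.subtypeEquivRight h2), Nat.card_congr (Equiv.subtypeEquivRight hin)]
    exact h1
  have h1 := card_avg (g := g) (x0 := x0) (R := R) (p := p) (w := w) (u := u) (r := r)
    (fun I => InT P g x0 R σ τ Q I ∧ gout g x0 R γ I = a)
  have h2 := card_avg (g := g) (x0 := x0) (R := R) (p := p) (w := w) (u := u) (r := r)
    (fun I => InT P g x0 R σ τ Q I)
  have h3 : (Nat.card {I : B → Fin d × Fin m → B // CF (fine g) x0 R I ∧ InT P g x0 R σ τ Q I ∧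
        gout g x0 R γ I = a} : ℝ) * Nat.card (Fin (w + 1) → Fin p × Fin m → B) ≤
      (Nat.card {I : B → Fin d × Fin m → B // CF (fine g) x0 R I ∧ InT P g x0 R σ τ Q I} / Nat.card G +
        E * Nat.card (B → Fin d × Fin m → B)) * Nat.card (Fin (w + 1) → Fin p × Fin m → B) := by
    calc (Nat.card {I : B → Fin d × Fin m → B // CF (fine g) x0 R I ∧ InT P g x0 R σ τ Q I ∧
          gout g x0 R γ I = a} : ℝ) * Nat.card (Fin (w + 1) → Fin p × Fin m → B)
        = ∑ I : {I : B → Fin d × Fin m → B // CF (fine g) x0 R I},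
            (Nat.card {y : Fin (w + 1) → Fin p × Fin m → B //
              InT P g x0 R σ τ Q (shw g x0 R u r y I.1) ∧ gout g x0 R γ (shw g x0 R u r y I.1) = a} : ℝ) := by
          exact_mod_cast h1
      _ ≤ ∑ I : {I : B → Fin d × Fin m → B // CF (fine g) x0 R I},
            ((Nat.card {y : Fin (w + 1) → Fin p × Fin m → B //
              InT P g x0 R σ τ Q (shw g x0 R u r y I.1)} : ℝ) / Nat.card G +
              E * Nat.card (Fin (w + 1) → Fin p × Fin m → B)) := Finset.sum_le_sum fun I _ => key I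
      _ = (Nat.card {I : B → Fin d × Fin m → B // CF (fine g) x0 R I ∧ InT P g x0 R σ τ Q I} : ℝ) *
            Nat.card (Fin (w + 1) → Fin p × Fin m → B) / Nat.card G +
            Fintype.card {I : B → Fin d × Fin m → B // CF (fine g) x0 R I} *
              (E * Nat.card (Fin (w + 1) → Fin p × Fin m → B)) := by
          rw [Finset.sum_add_distrib, Finset.sum_const, Finset.card_univ, nsmul_eq_mul, ← Finset.sum_div]
          congr 2
          exact_mod_cast h2.symm
      _ ≤ _ := by
          have h4 : (Fintype.card {I : B → Fin d × Fin m → B // CF (fine g) x0 R I} : ℝ) ≤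
              Nat.card (B → Fin d × Fin m → B) := by
            rw [Nat.card_eq_fintype_card]
            exact_mod_cast Fintype.card_subtype_le _
          have h5 := mul_le_mul_of_nonneg_right h4 (mul_nonneg hE0 hY0.le)
          rw [add_mul]
          have h6 : (Nat.card {I : B → Fin d × Fin m → B // CF (fine g) x0 R I ∧ InT P g x0 R σ τ Q I} : ℝ) *
            Nat.card (Fin (w + 1) → Fin p × Fin m → B) / Nat.card G =
            (Nat.card {I : B → Fin d × Fin m → B // CF (fine g) x0 R I ∧ InT P g x0 R σ τ Q I} : ℝ) / Nat.card G *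
              Nat.card (Fin (w + 1) → Fin p × Fin m → B) := by ring
          rw [h6]
          have h7 : E * (Nat.card (B → Fin d × Fin m → B) : ℝ) * Nat.card (Fin (w + 1) → Fin p × Fin m → B) =
            Nat.card (B → Fin d × Fin m → B) * (E * Nat.card (Fin (w + 1) → Fin p × Fin m → B)) := by ring
          rw [h7]
          linarith
  exact le_of_mul_le_mul_right h3 hY0

end Pool.Agent.Helper96.PH
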