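import Pool.Agent.Helper96.PH.Params
import Pool.Agent.Helper4.PH.Frm
import Pool.Agent.Helper84.PH.Perms
import Pool.Agent.Helper70.PH.Num
import Pool.Agent.Helper60.PH.Push
import Pool.Agent.Helper84.PH.Row
import Pool.Agent.Helper1.NW.Sim

/-!
# The theorem
-/

namespace Pool.Agent.Helper96.PH

open Pool.Agent.Helper19.NF Pool.Agent.Helper74.NW Pool.Agent.Helper74.NE
open Pool.Agent.Helper74.NS (Expands)

/-- The error for the parameters of the theorem. -/
theorem exists_const : ∃ C₀ : ℝ, 1 ≤ C₀ ∧ ∀ (ε : ℝ) (r a m k S : ℕ) (B : Type) [Fintype B], 0 < ε → ε ≤ 1 →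
    8 * C₀ ^ 2 ≤ a → 8 * C₀ ^ 2 * 4 ^ r / ε ^ 2 ≤ m → k = Fintype.card B →
    8 * C₀ ^ 2 * (a ^ 2 * (r + 1) * m : ℝ) ^ 2 ≤ k → S ≤ 2 ^ a →
      Pool.Agent.Helper4.PH.err B (ZMod 2) (8 * a * (r + 1)) 15 m a a r S (ε / (r + 2)) ≤ 1 / 100 := by
  obtain ⟨C₀, hC₀, h⟩ := Pool.Agent.Helper70.PH.numbers
  refine ⟨C₀, hC₀, fun ε r a m k S B _ h0 h1 ha hm hkB hk hS => ?_⟩
  obtain ⟨h2, h3, h4, h5, h6, h7⟩ := params C₀ hC₀ h0 h1 ha hm hk
  have hr2 : (0 : ℝ) < r + 2 := by positivity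
  have h8 : ε / (r + 2 : ℝ) ≤ 1 := by
    rw [div_le_one hr2]
    have : (0 : ℝ) ≤ r := Nat.cast_nonneg _
    linarith
  have h9 := h k m a r (ε / (r + 2)) (by positivity) h8 h2 h3 h4 h5 h6
  refine le_trans ?_ h9
  have hk0 : (0 : ℝ) < Real.sqrt k ∨ Real.sqrt k = 0 := by
    rcases (Real.sqrt_nonneg (k : ℝ)).lt_or_eq with h | h
    · exact Or.inl h
    · exact Or.inr h.symm
  have hS' : (S : ℝ) ≤ 2 ^ a := by exact_mod_cast hS
  unfold Pool.Agent.Helper4.PH.err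
  rw [Nat.card_eq_fintype_card, ← hkB, Nat.card_eq_fintype_card, ZMod.card]
  refine add_le_add (add_le_add (add_le_add ?_ ?_) ?_) ?_
  · refine le_of_eq ?_
    push_cast
    ring
  · refine div_le_div_of_nonneg_right ?_ (Real.sqrt_nonneg _)
    push_cast
    refine mul_le_mul_of_nonneg_left ?_ (by norm_num)
    exact pow_le_pow_left₀ (by norm_num) (by norm_num) _
  · have e1 : ((15 * m : ℕ) : ℝ) = 15 * m := by push_cast; ring
    push_cast
    refine mul_le_mul_of_nonneg_right ?_ (by positivity)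
    refine mul_le_mul_of_nonneg_left ?_ (by positivity)
    exact pow_le_pow_left₀ (by positivity) hS' 3
  · refine mul_le_mul_of_nonneg_right ?_ (by positivity)
    push_cast
    refine mul_le_mul_of_nonneg_left ?_ (by norm_num)
    refine pow_le_pow_left₀ (by positivity) ?_ _
    exact mul_le_mul_of_nonneg_right hS' (by positivity)

section programs

variable {r a m k : ℕ} {K : ℝ}

/-- Numbers for the upper bounds. -/
theorem upper (h1 : (1000 : ℝ) ≤ a) (h2 : (1000 : ℝ) ≤ m) (h3 : 1000 * (a ^ 2 * (r + 1) * m : ℝ) ^ 2 ≤ k) :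
    4 * ((a + 2) * (8 * a * (r + 1) * m) * (15 * m)) * (k ^ 2 * 2) ≤ k ^ 3 ∧
      4 * ((a + 2) * (8 * a * (r + 1) * m) * (15 * m)) * (k * 2) ≤ k ^ 3 ∧
      ((a + 2) * (8 * a * (r + 1) * m)) ^ 2 ≤ k ∧ (a + 2) * (8 * a * (r + 1) * m) ≤ k ∧
      (2 * k) ^ (2 * (8 * a * (r + 1) * m) + 2) ≤ k ^ (40 * a * (r + 1) * m) ∧ 2 ≤ k := by
  have h1' : 1000 ≤ a := by exact_mod_cast h1
  have h2' : 1000 ≤ m := by exact_mod_cast h2
  have h3' : 1000 * (a ^ 2 * (r + 1) * m) ^ 2 ≤ k := by exact_mod_cast h3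
  have h4 : a + 2 ≤ 2 * a := by omega
  set x := a ^ 2 * (r + 1) * m with hx
  have hx1 : 1000 ≤ x := by
    rw [hx]
    calc 1000 ≤ m := h2'
      _ ≤ a ^ 2 * (r + 1) * m := Nat.le_mul_of_pos_left _ (by positivity)
  have e1 : (a + 2) * (8 * a * (r + 1) * m) ≤ 16 * x := by
    calc (a + 2) * (8 * a * (r + 1) * m) ≤ (2 * a) * (8 * a * (r + 1) * m) := Nat.mul_le_mul_right _ h4
      _ = 16 * x := by rw [hx]; ring
  have e2 : ((a + 2) * (8 * a * (r + 1) * m)) ^ 2 ≤ k := by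
    calc ((a + 2) * (8 * a * (r + 1) * m)) ^ 2 ≤ (16 * x) ^ 2 := Nat.pow_le_pow_left e1 2
      _ = 256 * x ^ 2 := by ring
      _ ≤ 1000 * x ^ 2 := Nat.mul_le_mul_right _ (by norm_num)
      _ ≤ k := h3'
  have e3 : x ≤ k := by nlinarith
  have e4 : 8 * ((a + 2) * (8 * a * (r + 1) * m) * (15 * m)) ≤ k := by
    have e5 : m ≤ x := by
      rw [hx]
      exact Nat.le_mul_of_pos_left _ (by positivity)
    have e6 : 2 * m ≤ x := by
      rw [hx]
      refine Nat.mul_le_mul_right m ?_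
      nlinarith [Nat.zero_le r]
    calc 8 * ((a + 2) * (8 * a * (r + 1) * m) * (15 * m)) ≤ 8 * (16 * x * (15 * m)) :=
          Nat.mul_le_mul_left _ (Nat.mul_le_mul_right _ e1)
      _ = 1920 * (x * m) := by ring
      _ ≤ 1000 * x ^ 2 := by nlinarith
      _ ≤ k := h3'
  have hk2 : 1000 ≤ k := hx1.trans e3
  refine ⟨?_, ?_, e2, ?_, ?_, by omega⟩
  · calc 4 * ((a + 2) * (8 * a * (r + 1) * m) * (15 * m)) * (k ^ 2 * 2)
        = 8 * ((a + 2) * (8 * a * (r + 1) * m) * (15 * m)) * k ^ 2 := by ring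
      _ ≤ k * k ^ 2 := Nat.mul_le_mul_right _ e4
      _ = k ^ 3 := by ring
  · calc 4 * ((a + 2) * (8 * a * (r + 1) * m) * (15 * m)) * (k * 2)
        = 8 * ((a + 2) * (8 * a * (r + 1) * m) * (15 * m)) * k := by ring
      _ ≤ k * k := Nat.mul_le_mul_right _ e4
      _ ≤ k ^ 3 := by
        rw [pow_succ, pow_two]
        exact Nat.le_mul_of_pos_right _ (by omega)
  · refine le_trans ?_ e2
    rw [pow_two]
    exact Nat.le_mul_self _
  · have e7 : 4 ≤ 8 * a * (r + 1) * m := by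
      have : 0 < (r + 1) * m := by positivity
      calc 4 ≤ 8 * a := by omega
        _ ≤ 8 * a * ((r + 1) * m) := Nat.le_mul_of_pos_right _ this
        _ = 8 * a * (r + 1) * m := by ring
    calc (2 * k) ^ (2 * (8 * a * (r + 1) * m) + 2) ≤ (k ^ 2) ^ (2 * (8 * a * (r + 1) * m) + 2) := by
          refine Nat.pow_le_pow_left ?_ _
          rw [pow_two]
          exact Nat.mul_le_mul_right _ (by omega)
      _ = k ^ (2 * (2 * (8 * a * (r + 1) * m) + 2)) := by rw [← pow_mul]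
      _ ≤ k ^ (40 * a * (r + 1) * m) := by
          refine Nat.pow_le_pow_right (by omega) ?_
          have e8 : 40 * a * (r + 1) * m = 5 * (8 * a * (r + 1) * m) := by ring
          rw [e8]
          omega

end programs

/-- The theorem. -/
theorem main : ∃ C : ℝ, 1 ≤ C ∧ ∀ (ε : ℝ) (r a m : ℕ) [NeZero m], 0 < ε → ε ≤ 1 → C ≤ a → C * 4 ^ r / ε ^ 2 ≤ m →
    ∃ g : Fin 15 → Equiv.Perm (Fin (8 * a * (r + 1))),
      ∀ (B : Type) [AddCommGroup B] [Fintype B] [DecidableEq B] (x0 : Fin (8 * a * (r + 1)) × Fin m → B),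
      Function.Injective x0 → C * (a ^ 2 * (r + 1) * m : ℝ) ^ 2 ≤ Fintype.card B →
        -- the computations which can be cut
        (∀ l : List B, ((∃ X : Finset B, ε * Fintype.card B ≤ X.card ∧ ∀ b ∈ X, l.count b ≤ r) ∨
            l.length ≤ (r + 1) * win ε r (Fintype.card B)) → Cut (win ε r (Fintype.card B)) (r + 1) l) ∧
        -- nondeterministic programs which are never wrong
        (∀ (S : ℕ) (P : NProg B ((Fin 15 × Fin m → B) × ZMod 2) (ZMod 2) S), S ≤ 2 ^ a →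
          (∀ J l z, P.Ends J l z → z = out g x0 a J) →
          100 * Nat.card {J : B → (Fin 15 × Fin m → B) × ZMod 2 // (∃ l z, P.Ends J l z) ∧
              ∀ l z, P.Shortest J l z → Cut (win ε r (Fintype.card B)) (r + 1) l} ≤
            Nat.card (B → (Fin 15 × Fin m → B) × ZMod 2)) ∧
        -- unambiguous programs
        (∀ (S : ℕ) (P : NProg B ((Fin 15 × Fin m → B) × ZMod 2) (ZMod 2) S), S ≤ 2 ^ a → Unamb P →
          (Nat.card {J : B → (Fin 15 × Fin m → B) × ZMod 2 // ∃ l, P.Ends J l (out g x0 a J) ∧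
              Cut (win ε r (Fintype.card B)) (r + 1) l} : ℝ) ≤
            Nat.card {J : B → (Fin 15 × Fin m → B) × ZMod 2 // ∃ l z, P.Ends J l z ∧
              Cut (win ε r (Fintype.card B)) (r + 1) l} / 2 +
            Nat.card (B → (Fin 15 × Fin m → B) × ZMod 2) / 100) ∧
        -- nondeterministic pushdown programs which are never wrong
        (∀ (Q Γ : Type) [Fintype Q] (b : ℕ) (P : NPProg B ((Fin 15 × Fin m → B) × ZMod 2) (ZMod 2) Q Γ),
          (2 * Fintype.card Q ^ 2 + 2) ^ (b + 2) ≤ 2 ^ a → (∀ J l n z, P.Ends J l n z → z = out g x0 a J) →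
          100 * Nat.card {J : B → (Fin 15 × Fin m → B) × ZMod 2 // (∃ l n z, P.Ends J l n z ∧ n ≤ 2 ^ b) ∧
              ∀ l n z, P.Ends J l n z → ∃ X : Finset B, ε * Fintype.card B ≤ X.card ∧ ∀ c ∈ X, l.count c ≤ r} ≤
            Nat.card (B → (Fin 15 × Fin m → B) × ZMod 2)) ∧
        -- the pushdown program
        (∃ (Q Γ : Type) (_ : Finite Q) (_ : Finite Γ) (P : PProg B ((Fin 15 × Fin m → B) × ZMod 2) (ZMod 2) Q Γ),
          Nat.card Q ≤ Fintype.card B ^ 3 ∧ Nat.card Γ ≤ Fintype.card B ^ 3 ∧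
          ∀ J, P.Outputs J (out g x0 a J) ∧ Nat.card {b // P.Asks J b} ^ 2 ≤ Fintype.card B) ∧
        -- the program without store
        ∃ (S : ℕ) (P : NProg B ((Fin 15 × Fin m → B) × ZMod 2) (ZMod 2) S),
          S ≤ Fintype.card B ^ (40 * a * (r + 1) * m) ∧ Det P ∧
          ∀ J, (∃ l, P.Ends J l (out g x0 a J)) ∧
            ∀ l z, P.Ends J l z → z = out g x0 a J ∧ l.length ^ 2 ≤ Fintype.card B := by
  obtain ⟨C₀, hC₀, herr⟩ := exists_const
  refine ⟨1000 * C₀ ^ 2, by nlinarith, fun ε r a m _ h0 h1 ha hm => ?_⟩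
  have hC1 : (1 : ℝ) ≤ C₀ ^ 2 := one_le_pow₀ hC₀
  have ha1 : (1000 : ℝ) ≤ a := by linarith
  have ha2 : 1 ≤ a := by
    have : 1000 ≤ a := by exact_mod_cast ha1
    omega
  have hm' : 8 * C₀ ^ 2 * 4 ^ r / ε ^ 2 ≤ m := by
    refine le_trans ?_ hm
    refine div_le_div_of_nonneg_right ?_ (by positivity)
    refine mul_le_mul_of_nonneg_right ?_ (by positivity)
    linarith
  have hm1 : (1000 : ℝ) ≤ m := by
    refine le_trans ?_ hm
    rw [le_div_iff₀ (by positivity)]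
    have h2 : (1 : ℝ) ≤ 4 ^ r := one_le_pow₀ (by norm_num)
    have h3 : ε ^ 2 ≤ 1 := by nlinarith
    have h4 : (1000 : ℝ) * ε ^ 2 ≤ 1000 := by linarith
    have h5 : (1 : ℝ) ≤ C₀ ^ 2 * 4 ^ r := by nlinarith
    nlinarith
  obtain ⟨g, hg⟩ := Pool.Agent.Helper84.PH.exists_perms a (r + 1) ha2 (by omega)
  refine ⟨g, fun B _ _ _ x0 hx0 hk => ?_⟩
  set k := Fintype.card B with hkB
  have hk' : 8 * C₀ ^ 2 * (a ^ 2 * (r + 1) * m : ℝ) ^ 2 ≤ k := by
    refine le_trans ?_ hk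
    refine mul_le_mul_of_nonneg_right ?_ (by positivity)
    linarith
  have hk1 : 1000 * (a ^ 2 * (r + 1) * m : ℝ) ^ 2 ≤ k := by
    refine le_trans ?_ hk
    refine mul_le_mul_of_nonneg_right ?_ (by positivity)
    linarith
  obtain ⟨-, -, -, -, -, hrk⟩ := params C₀ hC₀ h0 h1 (by linarith) hm' hk'
  obtain ⟨u1, u2, u3, u4, u5, u6⟩ := upper ha1 hm1 hk1
  have hT : (win ε r k : ℝ) ≤ (1 - ε / (r + 2)) * Nat.card B := by
    rw [Nat.card_eq_fintype_card, ← hkB]
    exact win_le h1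
  have hn : (r + 1) * a ≤ 8 * a * (r + 1) := by
    calc (r + 1) * a = 1 * (a * (r + 1)) := by ring
      _ ≤ 8 * (a * (r + 1)) := Nat.mul_le_mul_right _ (by norm_num)
      _ = 8 * a * (r + 1) := by ring
  have hε' : (0 : ℝ) ≤ ε / (r + 2) := by positivity
  have hN : ∀ (S : ℕ) (P : NProg B ((Fin 15 × Fin m → B) × ZMod 2) (ZMod 2) S), S ≤ 2 ^ a →
      (∀ J l z, P.Ends J l z → z = out g x0 a J) →
      100 * Nat.card {J : B → (Fin 15 × Fin m → B) × ZMod 2 // (∃ l z, P.Ends J l z) ∧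
          ∀ l z, P.Shortest J l z → Cut (win ε r k) (r + 1) l} ≤
        Nat.card (B → (Fin 15 × Fin m → B) × ZMod 2) := by
    intro S P hS hP
    have h2 := Pool.Agent.Helper4.PH.sound_main (by rw [ZMod.card]) P g x0 hx0 (T := win ε r k) (w := r) hε' hT ha2
      hg hS hn hP
    have h3 := herr ε r a m k S B h0 h1 (by linarith) hm' hkB hk' hS
    have h4 : (0 : ℝ) ≤ Nat.card (B → (Fin 15 × Fin m → B) × ZMod 2) := Nat.cast_nonneg _
    have h5 := h2.trans (mul_le_mul_of_nonneg_right h3 h4)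
    have h6 : (100 : ℝ) * Nat.card {J : B → (Fin 15 × Fin m → B) × ZMod 2 // (∃ l z, P.Ends J l z) ∧
        ∀ l z, P.Shortest J l z → Cut (win ε r k) (r + 1) l} ≤
          Nat.card (B → (Fin 15 × Fin m → B) × ZMod 2) := by linarith
    exact_mod_cast h6
  refine ⟨?_, hN, ?_, ?_, ?_, ?_⟩
  · rintro l (⟨X, hX, hl⟩ | hl)
    · exact cut_of_rare h0 h1 hrk l X (hX.trans (by linarith)) hl
    · exact Pool.Agent.Helper6.PH.cut_of_length l hl
  · intro S P hS hP
    have h2 := Pool.Agent.Helper4.PH.unamb_main P hP g x0 hx0 (T := win ε r k) (w := r) hε' hT ha2 hg hS hn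
    have h3 := herr ε r a m k S B h0 h1 (by linarith) hm' hkB hk' hS
    have h4 : (0 : ℝ) ≤ Nat.card (B → (Fin 15 × Fin m → B) × ZMod 2) := Nat.cast_nonneg _
    have h5 := mul_le_mul_of_nonneg_right h3 h4
    rw [ZMod.card] at h2
    push_cast at h2
    linarith
  · intro Q Γ _ b P hQ hP
    obtain ⟨S, hS, P', hsim⟩ := Pool.Agent.Helper1.NW.sim P (0 : B) b
    refine le_trans (Nat.mul_le_mul_left _ ?_) (hN S P' (hS.trans hQ) fun J l z hl => ?_)
    · refine Nat.card_le_card_of_injective (fun J => ⟨J.1, ?_, ?_⟩) ?_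
      · obtain ⟨l, n, z, hl, hn'⟩ := J.2.1
        obtain ⟨l', hl', -⟩ := (hsim J.1).1 l n z hl hn'
        exact ⟨_, z, hl'⟩
      · intro l' z hl'
        obtain ⟨l, n, hl, hperm⟩ := (hsim J.1).2 l' z hl'.1
        obtain ⟨X, hX, hX2⟩ := J.2.2 l n z hl
        refine cut_of_rare h0 h1 hrk l' (X.erase 0) ?_ fun c hc => ?_
        · refine hX.trans ?_
          have h2 : X.card ≤ (X.erase 0).card + 1 := by
            have := Finset.pred_card_le_card_erase (s := X) (a := (0 : B))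
            omega
          exact_mod_cast h2
        · rw [hperm.count_eq, List.count_cons_of_ne (Finset.ne_of_mem_erase hc).symm]
          exact hX2 c (Finset.mem_of_mem_erase hc)
      · intro J J' h
        exact Subtype.ext (congrArg (fun z => z.1) h)
    · obtain ⟨l', n, hl', -⟩ := (hsim J).2 l z hl
      exact hP J l' n z hl'
  · obtain ⟨Q, Γ, hQ, hΓ, P, h2, h3, h4⟩ := Pool.Agent.Helper60.PH.pushdown_program (G := ZMod 2) g x0 a
      (by norm_num) (Nat.one_le_iff_ne_zero.mpr (by positivity))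
    rw [ZMod.card, ← hkB] at h2 h3
    refine ⟨Q, Γ, hQ, hΓ, P, h2.trans u1, h3.trans u2, fun J => ⟨(h4 J).1, ?_⟩⟩
    exact (Nat.pow_le_pow_left (h4 J).2 2).trans u3
  · obtain ⟨S, P, h2, h3, h4⟩ := Pool.Agent.Helper84.PH.row_program (G := ZMod 2) g x0 a (by rw [ZMod.card]; omega)
      u4
    rw [← hkB] at h2
    refine ⟨S, P, h2.trans u5, h3, fun J => ⟨(h4 J).1, fun l z hl => ⟨(h4 J).2.1 l z hl, ?_⟩⟩⟩
    exact (Nat.pow_le_pow_left ((h4 J).2.2 l z hl) 2).trans u3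

end Pool.Agent.Helper96.PH
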