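import Pool.Agent.Helper96.PH.Defs
import Pool.Agent.Helper6.PH.P3

/-!
# The parameters of the theorem
-/

namespace Pool.Agent.Helper96.PH

open Pool.Agent.Helper19.NF Pool.Agent.Helper74.NW Pool.Agent.Helper74.NE

/-- The number of different cells which a part of a computation may query. -/
noncomputable def win (ε : ℝ) (r k : ℕ) : ℕ := ⌊(1 - ε / (r + 2)) * k⌋₊

theorem win_le {ε : ℝ} {r k : ℕ} (h1 : ε ≤ 1) : (win ε r k : ℝ) ≤ (1 - ε / (r + 2)) * k := by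
  refine Nat.floor_le (mul_nonneg ?_ (Nat.cast_nonneg _))
  have h2 : ε / (r + 2 : ℝ) ≤ 1 := by
    rw [div_le_one (by positivity)]
    have : (0 : ℝ) ≤ r := Nat.cast_nonneg _
    linarith
  linarith

theorem lt_win {ε : ℝ} {r k : ℕ} : (1 - ε / (r + 2)) * k < win ε r k + 1 := Nat.lt_floor_add_one _

/-- If `ε k - 1` cells are queried at most `r` times each, then the computation can be cut into `r + 1` parts. -/
theorem cut_of_rare {B : Type} [Fintype B] [DecidableEq B] {ε : ℝ} {r : ℕ} (h0 : 0 < ε) (h1 : ε ≤ 1)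
    (hk : ((r + 2) * (r + 2) : ℝ) < ε * Fintype.card B) (l : List B) (X : Finset B)
    (hX : ε * Fintype.card B ≤ X.card + 1) (hl : ∀ b ∈ X, l.count b ≤ r) :
    Cut (win ε r (Fintype.card B)) (r + 1) l := by
  set k := Fintype.card B with hk'
  have hT : win ε r k ≤ k := by
    have h2 := win_le (r := r) (k := k) h1
    have h3 : (win ε r k : ℝ) ≤ k := by
      refine h2.trans ?_
      have h4 : 0 ≤ ε / (r + 2 : ℝ) := by positivity
      have h5 : (0 : ℝ) ≤ k := Nat.cast_nonneg _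
      nlinarith
    exact_mod_cast h3
  have hr2 : (0 : ℝ) < r + 2 := by positivity
  have h4 : ((k - win ε r k : ℕ) : ℝ) < ε / (r + 2) * k + 1 := by
    rw [Nat.cast_sub hT]
    have h5 := lt_win (ε := ε) (r := r) (k := k)
    linarith
  have h6 : ((r + 1 : ℕ) : ℝ) * ((k - win ε r k : ℕ) : ℝ) < X.card := by
    refine lt_of_lt_of_le ?_ (sub_le_iff_le_add.mpr hX)
    have h7 : ((r + 1 : ℕ) : ℝ) * ((k - win ε r k : ℕ) : ℝ) < (r + 1 : ℝ) * (ε / (r + 2) * k + 1) := by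
      push_cast
      exact mul_lt_mul_of_pos_left h4 (by positivity)
    refine h7.trans_le ?_
    have h8 : (r + 1 : ℝ) * (ε / (r + 2) * k + 1) = ε * k - 1 - (ε * k - (r + 2) * (r + 2)) / (r + 2) := by
      field_simp
      ring
    rw [h8]
    have h9 : 0 ≤ (ε * k - (r + 2) * (r + 2)) / (r + 2 : ℝ) := div_nonneg (by linarith) hr2.le
    linarith
  have h7 : (r + 1) * (k - win ε r k) < X.card := by exact_mod_cast h6
  refine Pool.Agent.Helper6.PH.cut_of_count l X hl hT ?_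
  have h8 : k - win ε r k ≤ X.card := by
    refine le_trans ?_ h7.le
    exact Nat.le_mul_of_pos_left _ (Nat.succ_pos r)
  obtain ⟨y, hy⟩ : ∃ y, X.card = (k - win ε r k) + y := ⟨X.card - (k - win ε r k), by omega⟩
  rw [← hk', hy, Nat.add_sub_cancel_left]
  rw [hy] at h7
  nlinarith

/-- The conditions for the numbers. -/
theorem params (C₀ : ℝ) (hC₀ : 1 ≤ C₀) {ε : ℝ} {r a m k : ℕ} (h0 : 0 < ε) (h1 : ε ≤ 1) (ha : 8 * C₀ ^ 2 ≤ a)
    (hm : 8 * C₀ ^ 2 * 4 ^ r / ε ^ 2 ≤ m) (hk : 8 * C₀ ^ 2 * (a ^ 2 * (r + 1) * m : ℝ) ^ 2 ≤ k) :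
    C₀ * ((r + 1) * 2 ^ r) ≤ m ∧ C₀ * Real.log (C₀ * (r + 1) / (ε / (r + 2))) / (ε / (r + 2)) ≤ m ∧ C₀ ≤ a ∧
      C₀ * (a * (a * (r + 1) * m)) ^ 2 ≤ k ∧ C₀ * 4 ^ r ≤ k ∧ ((r + 2) * (r + 2) : ℝ) < ε * k := by
  have hr0 : (0 : ℝ) ≤ r := Nat.cast_nonneg _
  have e1 : (r + 1 : ℝ) ≤ 2 ^ r := by exact_mod_cast Nat.lt_two_pow_self
  have e2 : (1 : ℝ) ≤ 2 ^ r := one_le_pow₀ (by norm_num)
  have e4 : (4 : ℝ) ^ r = 2 ^ r * 2 ^ r := by rw [← mul_pow]; norm_num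
  have e5 : (1 : ℝ) ≤ 4 ^ r := one_le_pow₀ (by norm_num)
  have e6 : C₀ ≤ C₀ ^ 2 := by nlinarith
  have e7 : (0 : ℝ) < 8 * C₀ ^ 2 := by positivity
  have e8 : ε ^ 2 ≤ 1 := by nlinarith
  have e9 : 8 * C₀ ^ 2 * 4 ^ r ≤ m := by
    refine le_trans ?_ hm
    rw [le_div_iff₀ (by positivity)]
    exact mul_le_of_le_one_right (by positivity) e8
  have hm1 : (8 : ℝ) ≤ m := by nlinarith
  have ha1 : (8 : ℝ) ≤ a := by nlinarith
  have ham : (m : ℝ) ≤ a ^ 2 * (r + 1) * m := by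
    have h2 : (1 : ℝ) ≤ a ^ 2 * (r + 1) := by nlinarith
    nlinarith
  have hkm : 8 * C₀ ^ 2 * (m : ℝ) ^ 2 ≤ k := by
    refine le_trans ?_ hk
    have h2 : (m : ℝ) ^ 2 ≤ (a ^ 2 * (r + 1) * m : ℝ) ^ 2 := pow_le_pow_left₀ (by linarith) ham 2
    exact mul_le_mul_of_nonneg_left h2 e7.le
  refine ⟨?_, ?_, by nlinarith, ?_, ?_, ?_⟩
  · refine le_trans ?_ e9
    rw [e4]
    have h2 : (r + 1 : ℝ) * 2 ^ r ≤ 2 ^ r * 2 ^ r := mul_le_mul_of_nonneg_right e1 (by positivity)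
    have h3 : C₀ * ((r + 1 : ℝ) * 2 ^ r) ≤ C₀ * (2 ^ r * 2 ^ r) := mul_le_mul_of_nonneg_left h2 (by linarith)
    have h4 : (0 : ℝ) ≤ 2 ^ r * 2 ^ r := by positivity
    nlinarith
  · refine le_trans ?_ hm
    have hr2 : (0 : ℝ) < r + 2 := by positivity
    set y : ℝ := C₀ * (r + 1) / (ε / (r + 2)) with hy
    have hy' : y = C₀ * (r + 1) * (r + 2) / ε := by rw [hy]; field_simp
    have hy0 : 0 < y := by rw [hy']; positivity
    have h2 : Real.log y ≤ 2 * Real.sqrt y := by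
      have h3 : Real.log y = 2 * Real.log (Real.sqrt y) := by rw [Real.log_sqrt hy0.le]; ring
      rw [h3]
      have h4 := Real.log_le_sub_one_of_pos (Real.sqrt_pos.mpr hy0)
      linarith
    -- `y ≤ (2 C₀ 2 ^ r / ε) ^ 2`
    have h3 : y ≤ (2 * C₀ * 2 ^ r / ε) ^ 2 := by
      rw [hy', div_pow, div_le_div_iff₀ h0 (by positivity)]
      have h4 : (r + 1 : ℝ) * (r + 2) ≤ 4 * 4 ^ r := by
        rw [e4]
        have : (r + 2 : ℝ) ≤ 2 * 2 ^ r := by linarith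
        nlinarith
      have h5 : C₀ * (r + 1) * (r + 2) ≤ (2 * C₀ * 2 ^ r) ^ 2 := by
        calc C₀ * (r + 1) * (r + 2) = C₀ * ((r + 1 : ℝ) * (r + 2)) := by ring
          _ ≤ C₀ ^ 2 * (4 * 4 ^ r) := by
            apply mul_le_mul e6 h4 (by positivity) (by positivity)
          _ = (2 * C₀ * 2 ^ r) ^ 2 := by rw [e4]; ring
      calc C₀ * (r + 1) * (r + 2) * ε ^ 2 ≤ (2 * C₀ * 2 ^ r) ^ 2 * ε ^ 2 :=
            mul_le_mul_of_nonneg_right h5 (by positivity)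
        _ ≤ (2 * C₀ * 2 ^ r) ^ 2 * ε := by
            refine mul_le_mul_of_nonneg_left ?_ (by positivity)
            nlinarith
    have h4 : Real.sqrt y ≤ 2 * C₀ * 2 ^ r / ε := by
      rw [Real.sqrt_le_left (by positivity)]
      exact h3
    have h5 : (r + 2 : ℝ) ≤ 2 * 2 ^ r := by linarith
    calc C₀ * Real.log y / (ε / (r + 2)) = C₀ * Real.log y * (r + 2) / ε := by field_simp
      _ ≤ C₀ * (2 * (2 * C₀ * 2 ^ r / ε)) * (2 * 2 ^ r) / ε := by
          refine div_le_div_of_nonneg_right ?_ h0.le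
          refine mul_le_mul ?_ h5 (by positivity) (by positivity)
          refine mul_le_mul_of_nonneg_left ?_ (by linarith)
          linarith
      _ = 8 * C₀ ^ 2 * 4 ^ r / ε ^ 2 := by rw [e4]; field_simp; ring
  · have h2 : (a * (a * (r + 1) * m) : ℝ) ^ 2 = (a ^ 2 * (r + 1) * m : ℝ) ^ 2 := by ring
    rw [h2]
    refine le_trans ?_ hk
    refine mul_le_mul_of_nonneg_right ?_ (by positivity)
    nlinarith
  · refine le_trans ?_ hkm
    have h3 : (4 : ℝ) ^ r ≤ m := by nlinarith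
    have h4 : (m : ℝ) ≤ m * m := by nlinarith
    have h5 : (0 : ℝ) ≤ m * m := by positivity
    nlinarith
  · -- `ε m ≥ 8 * 4 ^ r`
    have h2 : 8 * 4 ^ r ≤ ε * m := by
      have h3 : 8 * C₀ ^ 2 * 4 ^ r ≤ m * ε ^ 2 := by
        rwa [div_le_iff₀ (by positivity)] at hm
      have h4 : (m : ℝ) * ε ^ 2 ≤ ε * m := by
        have : (m : ℝ) * ε ^ 2 = ε * m * ε := by ring
        rw [this]
        exact mul_le_of_le_one_right (by positivity) h1
      have h5 : (1 : ℝ) ≤ C₀ ^ 2 := one_le_pow₀ hC₀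
      nlinarith
    have h4 : (r + 2 : ℝ) * (r + 2) ≤ 4 * 4 ^ r := by
      rw [e4]
      have : (r + 2 : ℝ) ≤ 2 * 2 ^ r := by linarith
      nlinarith
    have h5 : ε * (m : ℝ) ≤ ε * k := by
      refine mul_le_mul_of_nonneg_left ?_ h0.le
      have h6 : (1 : ℝ) ≤ C₀ ^ 2 := one_le_pow₀ hC₀
      nlinarith
    have h6 : (0 : ℝ) < 4 ^ r := by positivity
    linarith

end Pool.Agent.Helper96.PH
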