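import Pool.Agent.Helper96.PH.Uni

/-!
# Programs which read a fraction of the cells rarely and all other cells arbitrarily often

The nodes of the network are the elements of `Fin (8 * a * (w + 1))`, a row has `m` letters in each node; letters are
elements of the finite abelian group `B`. The input is a table with one cell for every `b : B`; the cell `b` contains
the letters `(J b).1 (s, t)`, `s : Fin 15`, `t : Fin m`, and the bit `(J b).2 : ZMod 2`. The letter `(u, t)` of the row
`i + 1` is the sum over all `(s, t')` of the letters `(s, t')` of the cell given by the letter `(g s u, t + t')` of the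
row `i` (`val (fine g) x0`). The result `out g x0 a J` is the sum of the bits of the cells given by the letters of the
row `a + 1`.

`NProg` are nondeterministic branching programs, `NPProg` nondeterministic ones with a pushdown store, `PProg`
deterministic ones with a pushdown store. The list `l` in `P.Ends J l z` contains the cells queried by a computation
with result `z`, in the order of the queries. The parameter `w` may be `c log M` for `M = |B|` large, with `m ≤ M ^ δ`
and `a ≥ M ^ (1 / 4 - δ)`.
-/

namespace Pool.Agent.Results.MP_4e849b_lc.RarelyReadCells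

open Pool.Agent.Helper19.NF Pool.Agent.Helper74.NW Pool.Agent.Helper74.NE Pool.Agent.Helper96.PH

theorem result : ∃ C : ℝ, 1 ≤ C ∧ ∀ (ε : ℝ) (w a m : ℕ) [NeZero m], 0 < ε → ε ≤ 1 → 1 ≤ w → C ≤ a → C ^ w / ε ^ 2 ≤ m →
    ∃ g : Fin 15 → Equiv.Perm (Fin (8 * a * (w + 1))),
      ∀ (B : Type) [AddCommGroup B] [Fintype B] [DecidableEq B] (x0 : Fin (8 * a * (w + 1)) × Fin m → B),
      Function.Injective x0 → C * (a ^ 2 * (w + 1) * m : ℝ) ^ 2 ≤ Fintype.card B →
        -- (H) the computations which can be cut into `w + 1` parts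
        (∀ l : List B, ((∃ X : Finset B, ε * Fintype.card B ≤ X.card ∧ ∀ b ∈ X, l.count b ≤ w) ∨
            l.length ≤ (w + 1) * win ε w (Fintype.card B)) → Cut (win ε w (Fintype.card B)) (w + 1) l) ∧
        -- (N) nondeterministic programs which are never wrong
        (∀ (S : ℕ) (P : NProg B ((Fin 15 × Fin m → B) × ZMod 2) (ZMod 2) S), S ≤ 2 ^ a →
          (∀ J l z, P.Ends J l z → z = out g x0 a J) →
          100 * Nat.card {J : B → (Fin 15 × Fin m → B) × ZMod 2 // (∃ l z, P.Ends J l z) ∧
              ∀ l z, P.Shortest J l z →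
                (∃ X : Finset B, ε * Fintype.card B ≤ X.card ∧ ∀ b ∈ X, l.count b ≤ w ^ 2) ∨
                Cut (win ε w (Fintype.card B)) (w + 1) l} ≤
            Nat.card (B → (Fin 15 × Fin m → B) × ZMod 2)) ∧
        -- (U) unambiguous programs
        (∀ (S : ℕ) (P : NProg B ((Fin 15 × Fin m → B) × ZMod 2) (ZMod 2) S), S ≤ 2 ^ a → Unamb P →
          (Nat.card {J : B → (Fin 15 × Fin m → B) × ZMod 2 // ∃ l, P.Ends J l (out g x0 a J) ∧
              Cut (win ε w (Fintype.card B)) (w + 1) l} : ℝ) ≤
            Nat.card {J : B → (Fin 15 × Fin m → B) × ZMod 2 // ∃ l z, P.Ends J l z ∧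
              Cut (win ε w (Fintype.card B)) (w + 1) l} / 2 +
            Nat.card (B → (Fin 15 × Fin m → B) × ZMod 2) / 100) ∧
        -- (S) nondeterministic pushdown programs which are never wrong
        (∀ (Q Γ : Type) [Fintype Q] (b : ℕ) (P : NPProg B ((Fin 15 × Fin m → B) × ZMod 2) (ZMod 2) Q Γ),
          (2 * Fintype.card Q ^ 2 + 2) ^ (b + 2) ≤ 2 ^ a → (∀ J l n z, P.Ends J l n z → z = out g x0 a J) →
          100 * Nat.card {J : B → (Fin 15 × Fin m → B) × ZMod 2 // (∃ l n z, P.Ends J l n z ∧ n ≤ 2 ^ b) ∧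
              ∀ l n z, P.Ends J l n z →
                ∃ X : Finset B, ε * Fintype.card B ≤ X.card ∧ ∀ c ∈ X, l.count c ≤ w ^ 2} ≤
            Nat.card (B → (Fin 15 × Fin m → B) × ZMod 2)) ∧
        -- (P) a deterministic pushdown program
        (∃ (Q Γ : Type) (_ : Finite Q) (_ : Finite Γ) (P : PProg B ((Fin 15 × Fin m → B) × ZMod 2) (ZMod 2) Q Γ),
          Nat.card Q ≤ Fintype.card B ^ 3 ∧ Nat.card Γ ≤ Fintype.card B ^ 3 ∧
          ∀ J, P.Outputs J (out g x0 a J) ∧ Nat.card {b // P.Asks J b} ^ 2 ≤ Fintype.card B) ∧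
        -- (D) a deterministic program without store
        ∃ (S : ℕ) (P : NProg B ((Fin 15 × Fin m → B) × ZMod 2) (ZMod 2) S),
          S ≤ Fintype.card B ^ (40 * a * (w + 1) * m) ∧ Det P ∧
          ∀ J, (∃ l, P.Ends J l (out g x0 a J)) ∧
            ∀ l z, P.Ends J l z → z = out g x0 a J ∧ l.length ^ 2 ≤ Fintype.card B :=
  uni

end Pool.Agent.Results.MP_4e849b_lc.RarelyReadCells
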