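import Pool.Agent.Helper96.PH.Defs

/-!
# Frame (only for the work, not for the graded result)
-/

namespace Pool.Agent.Helper96.PH.Frame

open Pool.Agent.Helper74.NW Pool.Agent.Helper74.NE Pool.Agent.Helper19.NF Pool.Agent.Helper96.PH
open Pool.Agent.Helper74.NS (Expands)

/-- P1 (helper1 + helper18): Babai, Nisan and Szegedy for random `γ`. -/
theorem bns (B G : Type) [AddCommGroup B] [Fintype B] [AddCommGroup G] [Fintype G] (w : ℕ) :
    (Nat.card {γ : B → G // ¬ ∀ (ι : Type) [Fintype ι],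
        CB γ ι w ((Fintype.card B : ℝ) ^ (-(Fintype.card ι : ℝ) / 2 ^ (w + 2)))} : ℝ) ≤
      Fintype.card G * 2 ^ (w + 1) / Real.sqrt (Fintype.card B) * Nat.card (B → G) := sorry

section lists

variable {C W Z : Type} {S K : ℕ} {P : NProg C W Z S} {I : C → W}

/-- P2a (helper98): the windows of a computation which can be cut. -/
theorem exists_windows {T w : ℕ} {s t : Fin S} {l : List C} (h : P.Run I s l t) (hz : ∃ z, P.act t = Sum.inr z)
    (hc : Cut T (w + 1) l) :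
    ∃ (x : Fin (w + 1) → List C) (σ : Fin (w + 2) → Fin S), σ 0 = s ∧ σ (Fin.last _) = t ∧
      (List.ofFn x).flatten = l ∧
      ∀ j, P.Run I (σ j.castSucc) (x j) (σ j.succ) ∧ Greedy P T (σ j.succ) (x j) := sorry

/-- P2b (helper98): deterministic programs are unambiguous. -/
theorem det_unamb (hP : Det P) : Unamb P := sorry

/-- P2c (helper98): for an unambiguous program the windows are unique. -/
theorem unique_windows (hP : Unamb P) {T w : ℕ} {σ σ' : Fin (w + 2) → Fin S} {x x' : Fin (w + 1) → List C} {z z' : Z}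
    (h0 : σ 0 = P.start) (h0' : σ' 0 = P.start) (hz : P.act (σ (Fin.last _)) = Sum.inr z)
    (hz' : P.act (σ' (Fin.last _)) = Sum.inr z')
    (h : ∀ j, P.Run I (σ j.castSucc) (x j) (σ j.succ) ∧ Greedy P T (σ j.succ) (x j))
    (h' : ∀ j, P.Run I (σ' j.castSucc) (x' j) (σ' j.succ) ∧ Greedy P T (σ' j.succ) (x' j)) :
    σ = σ' ∧ x = x' := sorry

/-- P2d (helper98): the computation of an unambiguous program is best. -/
theorem unamb_best (hP : Unamb P) {e : C → Fin K} {t : Fin S} {l : List C} {z : Z} (h : P.Run I P.start l t)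
    (hz : P.act t = Sum.inr z) : Best P e I P.start l t := sorry

/-- P3a (helper6): if each of `L` cells is queried at most `r` times, then there are few windows. -/
theorem cut_of_count [Fintype C] [DecidableEq C] {T W r : ℕ} (l : List C) (X : Finset C)
    (hX : ∀ c ∈ X, l.count c ≤ r) (hT : T ≤ Fintype.card C)
    (h : r * X.card < W * (X.card - (Fintype.card C - T))) : Cut T W l := sorry

/-- P3b (helper6): a short computation has few windows. -/
theorem cut_of_length {T W : ℕ} (l : List C) (h : l.length ≤ W * T) : Cut T W l := sorry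

end lists

variable {n d m : ℕ} {B G : Type} [AddCommGroup B] [AddCommGroup G] [NeZero m] {S K : ℕ}

/-- P4 (helper66): `good_bound`, but for runs between arbitrary states. -/
theorem good_bound [Fintype B] {Z : Type} (P : NProg B (Fin d × Fin m → B) Z S) (e : B → Fin K)
    (he : Function.Injective e) (g : Fin d → Equiv.Perm (Fin n)) (x0 : Fin n × Fin m → B)
    {R T a : ℕ} {δ : ℝ} (hδ : DP B (Fin a × Fin m) T δ) (ha : 1 ≤ a) (hE : Expands g a) :
    (Nat.card {I : B → Fin d × Fin m → B // CF (fine g) x0 R I ∧ ∃ s l t, Best P e I s l t ∧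
        Nat.card {c // c ∈ l} ≤ T ∧ a ≤ (comp g x0 I R l).card ∧ l.length ≤ 2 ^ R} : ℝ) ≤
      R * n.choose a * ((d * m) ^ a) ^ 2 * (S : ℝ) ^ 3 * δ * Nat.card (B → Fin d × Fin m → B) := sorry

/-- P5 (helper96): the inputs of one type. -/
theorem type_bound [Fintype B] [Fintype G] {Z : Type} (P : NProg B (Fin d × Fin m → B) Z S)
    (g : Fin d → Equiv.Perm (Fin n)) (x0 : Fin n × Fin m → B) {R w : ℕ} {E : ℝ} (γ : B → G)
    (σ : Fin (w + 2) → Fin S) (τ : Fin (w + 1) → Fin n → Option (Fin d × Fin m))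
    (hE : CB γ (Fin (opn τ).card × Fin m) w E) (Q : Fin (w + 1) → List B → Prop) (a : G) :
    (Nat.card {I : B → Fin d × Fin m → B // CF (fine g) x0 R I ∧ InT P g x0 R σ τ Q I ∧
        gout g x0 R γ I = a} : ℝ) ≤
      Nat.card {I : B → Fin d × Fin m → B // CF (fine g) x0 R I ∧ InT P g x0 R σ τ Q I} / Nat.card G +
        E * Nat.card (B → Fin d × Fin m → B) := sorry

/-- P6 (helper78): nondeterministic programs which never give a wrong result, for fixed `γ`. -/
theorem sound_bound [Fintype B] [Fintype G] (hG : 2 ≤ Fintype.card G) (P : NProg B (Fin d × Fin m → B) G S)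
    (g : Fin d → Equiv.Perm (Fin n)) (x0 : Fin n × Fin m → B) {R T a w N : ℕ} {δ E : ℝ}
    (hδ : DP B (Fin a × Fin m) T δ) (ha : 1 ≤ a) (hX : Expands g a) (hS : S ≤ 2 ^ R) (γ : B → G) (hE0 : 0 ≤ E)
    (hN : N + (w + 1) * a ≤ n) (hE : ∀ p, N ≤ p → CB γ (Fin p × Fin m) w E)
    (hP : ∀ I l z, P.Ends I l z → z = gout g x0 R γ I) :
    (Nat.card {I : B → Fin d × Fin m → B // CF (fine g) x0 R I ∧ (∃ l z, P.Ends I l z) ∧
        ∀ l z, P.Shortest I l z → Cut T (w + 1) l} : ℝ) ≤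
      (R * n.choose a * ((d * m) ^ a) ^ 2 * (S : ℝ) ^ 3 * δ + 2 * (S * (d * m + 1) ^ n) ^ (w + 1) * E) *
        Nat.card (B → Fin d × Fin m → B) := sorry

/-- P7 (helper78): unambiguous programs, for fixed `γ`. -/
theorem unamb_bound [Fintype B] [Fintype G] (P : NProg B (Fin d × Fin m → B) G S) (hP : Unamb P)
    (g : Fin d → Equiv.Perm (Fin n)) (x0 : Fin n × Fin m → B) {R T a w N : ℕ} {δ E : ℝ}
    (hδ : DP B (Fin a × Fin m) T δ) (ha : 1 ≤ a) (hX : Expands g a) (hS : S ≤ 2 ^ R) (γ : B → G) (hE0 : 0 ≤ E)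
    (hN : N + (w + 1) * a ≤ n) (hE : ∀ p, N ≤ p → CB γ (Fin p × Fin m) w E) :
    (Nat.card {I : B → Fin d × Fin m → B // CF (fine g) x0 R I ∧ ∃ l, P.Ends I l (gout g x0 R γ I) ∧
        Cut T (w + 1) l} : ℝ) ≤
      Nat.card {I : B → Fin d × Fin m → B // ∃ l z, P.Ends I l z ∧ Cut T (w + 1) l} / Fintype.card G +
        (R * n.choose a * ((d * m) ^ a) ^ 2 * (S : ℝ) ^ 3 * δ + (S * (d * m + 1) ^ n) ^ (w + 1) * E) *
          Nat.card (B → Fin d × Fin m → B) := sorry

/-- P8a (helper4): the nondeterministic theorem. -/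
theorem sound_main [Fintype B] [Fintype G] (hG : 2 ≤ Fintype.card G)
    (P : NProg B ((Fin d × Fin m → B) × G) G S) (g : Fin d → Equiv.Perm (Fin n)) (x0 : Fin n × Fin m → B)
    (h0 : Function.Injective x0) {R T a w : ℕ} {ε : ℝ} (hε : 0 ≤ ε) (hT : (T : ℝ) ≤ (1 - ε) * Nat.card B)
    (ha : 1 ≤ a) (hX : Expands g a) (hS : S ≤ 2 ^ R) (hn : (w + 1) * a ≤ n)
    (hP : ∀ J l z, P.Ends J l z → z = out g x0 R J) :
    (Nat.card {J : B → (Fin d × Fin m → B) × G // (∃ l z, P.Ends J l z) ∧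
        ∀ l z, P.Shortest J l z → Cut T (w + 1) l} : ℝ) ≤
      err B G n d m a R w S ε * Nat.card (B → (Fin d × Fin m → B) × G) := sorry

/-- P8b (helper4): the theorem for unambiguous programs. -/
theorem unamb_main [Fintype B] [Fintype G]
    (P : NProg B ((Fin d × Fin m → B) × G) G S) (hP : Unamb P) (g : Fin d → Equiv.Perm (Fin n))
    (x0 : Fin n × Fin m → B) (h0 : Function.Injective x0) {R T a w : ℕ} {ε : ℝ} (hε : 0 ≤ ε)
    (hT : (T : ℝ) ≤ (1 - ε) * Nat.card B) (ha : 1 ≤ a) (hX : Expands g a) (hS : S ≤ 2 ^ R) (hn : (w + 1) * a ≤ n) :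
    (Nat.card {J : B → (Fin d × Fin m → B) × G // ∃ l, P.Ends J l (out g x0 R J) ∧ Cut T (w + 1) l} : ℝ) ≤
      Nat.card {J : B → (Fin d × Fin m → B) × G // ∃ l z, P.Ends J l z ∧ Cut T (w + 1) l} / Fintype.card G +
        err B G n d m a R w S ε * Nat.card (B → (Fin d × Fin m → B) × G) := sorry

/-- P9 (helper92): expanding permutations for more nodes. -/
theorem exists_perms (a W : ℕ) (ha : 1 ≤ a) (hW : 1 ≤ W) :
    ∃ g : Fin 15 → Equiv.Perm (Fin (8 * a * W)), Expands g a := sorry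

/-- P10 (helper99 / 70): the numbers; `n = 8 a W` nodes, `W` windows, at most `2 ^ a` states, `R = a`. -/
theorem numbers : ∃ C : ℝ, 1 ≤ C ∧ ∀ (k m a w : ℕ) (ε : ℝ), 0 < ε → ε ≤ 1 →
    C * ((w + 1) * 2 ^ w) ≤ m → C * Real.log (C * (w + 1) / ε) / ε ≤ m → C ≤ a →
    C * (a * (a * (w + 1) * m)) ^ 2 ≤ k → C * 4 ^ w ≤ k →
      ((a + 1 : ℝ) * ((8 * a * (w + 1) : ℕ) * m)) ^ 2 / k + 2 * 2 ^ (w + 1) / Real.sqrt k +
        a * (8 * a * (w + 1)).choose a * ((15 * m : ℝ) ^ a) ^ 2 * ((2 : ℝ) ^ a) ^ 3 * (2 / (1 + ε / 2) ^ (a * m)) +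
        2 * ((2 : ℝ) ^ a * (15 * m + 1) ^ (8 * a * (w + 1))) ^ (w + 1) *
          (k : ℝ) ^ (-((8 * a * (w + 1) - (w + 1) * a : ℕ) * m : ℝ) / 2 ^ (w + 2)) ≤ 1 / 100 := sorry

/-- P11a (helper60): the pushdown program. -/
theorem pushdown_program [Fintype B] [Fintype G] (g : Fin d → Equiv.Perm (Fin n)) (x0 : Fin n × Fin m → B) (R : ℕ)
    (hd : 1 ≤ d) (hn : 1 ≤ n) :
    ∃ (Q Γ : Type) (_ : Finite Q) (_ : Finite Γ) (P : PProg B ((Fin d × Fin m → B) × G) G Q Γ),
      Nat.card Q ≤ 4 * ((R + 2) * (n * m) * (d * m)) * (Fintype.card B ^ 2 * Fintype.card G) ∧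
      Nat.card Γ ≤ 4 * ((R + 2) * (n * m) * (d * m)) * (Fintype.card B * Fintype.card G) ∧
      ∀ J, P.Outputs J (out g x0 R J) ∧ Nat.card {b // P.Asks J b} ≤ (R + 2) * (n * m) := sorry

/-- P11b (helper84): the row program, without store. -/
theorem row_program [Fintype B] [Fintype G] (g : Fin d → Equiv.Perm (Fin n)) (x0 : Fin n × Fin m → B) (R : ℕ)
    (hG : Fintype.card G ≤ Fintype.card B) (hB : (R + 2) * (n * m) ≤ Fintype.card B) :
    ∃ (S : ℕ) (P : NProg B ((Fin d × Fin m → B) × G) G S), S ≤ (2 * Fintype.card B) ^ (2 * (n * m) + 2) ∧ Det P ∧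
      ∀ J, (∃ l, P.Ends J l (out g x0 R J)) ∧ (∀ l z, P.Ends J l z → z = out g x0 R J) ∧
        ∀ l z, P.Ends J l z → l.length ≤ (R + 2) * (n * m) := sorry

end Pool.Agent.Helper96.PH.Frame
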