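import Pool.Agent.Helper96.PH.Defs
import Pool.Agent.Helper6.PQ.Sum

/-!
# The numbers of the theorem with `w ^ 2` queries; from windows to groups
-/

namespace Pool.Agent.Helper96.PH

open Real
open Pool.Agent.Helper6.PQ (GCut)

/-- Windows give groups. -/
theorem gcut_of_cut {C : Type} {T T' W J : ℕ} {l : List C} (h : Cut T W l) (hT : T ≤ T') (hW : 0 < W) (hJ : W ≤ J) :
    GCut T' W J l := by
  obtain ⟨p, hp, rfl, hc⟩ := h
  refine ⟨fun j => p.getD j [], fun j => ⟨min j (W - 1), by omega⟩, ?_, fun q => ?_⟩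
  · have h1 : List.ofFn (fun j : Fin J => p.getD (j : ℕ) []) = p ++ List.replicate (J - W) [] := by
      refine List.ext_getElem ?_ fun i h2 h3 => ?_
      · simp [hp]
        omega
      · rw [List.getElem_ofFn]
        by_cases h4 : i < p.length
        · rw [List.getElem_append_left h4]
          simp [h4]
        · rw [List.getElem_append_right (by omega)]
          simp [Nat.le_of_not_lt h4]
    rw [h1]
    simp
  · have hq : (q : ℕ) < p.length := by rw [hp]; exact q.2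
    refine le_trans ?_ ((hc (p[(q : ℕ)]) (List.getElem_mem hq)).trans hT)
    have hf : Finite {c // c ∈ p[(q : ℕ)]} := List.finite_toSet _
    refine Nat.card_le_card_of_injective (fun c => ⟨c.1, ?_⟩) ?_
    · obtain ⟨j, hj, hc0⟩ := c.2
      have hc' : c.1 ∈ p.getD (j : ℕ) [] := hc0
      have h5 : (j : ℕ) < p.length := by
        by_contra h6
        rw [List.getD_eq_default _ _ (by omega)] at hc'
        simp at hc'
      have h6 : min (j : ℕ) (W - 1) = q := congrArg Fin.val hj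
      have h7 : (j : ℕ) = q := by omega
      rw [List.getD_eq_getElem _ _ h5] at hc'
      simp only [h7] at hc'
      exact hc'
    · intro c c' h
      exact Subtype.ext (congrArg (fun z => z.1) h)

theorem beta_pow {w : ℕ} (hw : 1 ≤ w) : ((3 : ℝ) ^ w)⁻¹ ≤ (1 - 1 / (w + 1 : ℝ)) ^ (w ^ 2) := by
  have hw0 : (0 : ℝ) < w := by exact_mod_cast hw
  have h1 : (1 - 1 / (w + 1 : ℝ)) = (1 + 1 / (w : ℝ))⁻¹ := by
    field_simp
    ring
  have h2 : (1 + 1 / (w : ℝ)) ^ w ≤ 3 := by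
    have h3 : 1 + 1 / (w : ℝ) ≤ exp (1 / w) := by
      have := add_one_le_exp (1 / (w : ℝ))
      linarith
    calc (1 + 1 / (w : ℝ)) ^ w ≤ exp (1 / w) ^ w := pow_le_pow_left₀ (by positivity) h3 _
      _ = exp 1 := by
        rw [← exp_nat_mul]
        congr 1
        field_simp
      _ ≤ 3 := by
        have := exp_one_lt_d9
        linarith
  rw [h1, inv_pow, pow_two, pow_mul]
  exact inv_anti₀ (by positivity) (pow_le_pow_left₀ (by positivity) h2 _)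

/-- The numbers. -/
theorem uni_params (C₀ : ℝ) (hC₀ : 1 ≤ C₀) {ε : ℝ} {w m k : ℕ} (h0 : 0 < ε) (h1 : ε ≤ 1) (hw : 1 ≤ w)
    (hm : (10 ^ 6 * C₀ ^ 2) ^ w / ε ^ 2 ≤ m) (hk : (m : ℝ) ^ 2 ≤ k) :
    ∃ (J : ℕ) (ρ : ℝ), 0 < ρ ∧ ρ ≤ 1 ∧ w + 1 ≤ J ∧ ρ ≤ ε / (w + 2) ∧ C₀ * (J * 2 ^ w) ≤ m ∧
      C₀ * (J + log (C₀ / ρ)) / ρ ≤ m ∧
      16 * ((w ^ 2 : ℕ) : ℝ) ^ 2 * (w + 1) < J * ((1 - 1 / (w + 1 : ℝ)) ^ (w ^ 2)) ^ 2 ∧
      4 * ρ ≤ ε / 2 * (1 - 1 / (w + 1 : ℝ)) ^ (w ^ 2) ∧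
      8 * ((w ^ 2 : ℕ) : ℝ) * (w + 1) ≤ ε / 2 * k * ((1 - 1 / (w + 1 : ℝ)) ^ (w ^ 2)) ^ 2 ∧
      4 ≤ ε / 2 * (1 - 1 / (w + 1 : ℝ)) ^ (w ^ 2) * k := by
  set b : ℝ := (1 - 1 / (w + 1 : ℝ)) ^ (w ^ 2) with hb
  have hb1 : ((3 : ℝ) ^ w)⁻¹ ≤ b := beta_pow hw
  have h3w : (0 : ℝ) < 3 ^ w := by positivity
  have hb0 : 0 < b := lt_of_lt_of_le (by positivity) hb1
  have hb2 : ((9 : ℝ) ^ w)⁻¹ ≤ b ^ 2 := by
    have e1 : ((9 : ℝ) ^ w)⁻¹ = (((3 : ℝ) ^ w)⁻¹) ^ 2 := by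
      rw [inv_pow, ← pow_mul, mul_comm w 2, pow_mul]
      norm_num
    rw [e1]
    exact pow_le_pow_left₀ (by positivity) hb1 2
  -- powers of `w`
  have hw1 : (1 : ℝ) ≤ w := by exact_mod_cast hw
  have e1 : (w + 1 : ℝ) ≤ 2 ^ w := by exact_mod_cast Nat.lt_two_pow_self
  have e2 : (w : ℝ) ≤ 2 ^ w := by linarith
  have e3 : (w : ℝ) ^ 4 * (w + 1) ≤ 32 ^ w := by
    calc (w : ℝ) ^ 4 * (w + 1) ≤ (2 ^ w) ^ 4 * 2 ^ w :=
          mul_le_mul (pow_le_pow_left₀ (by linarith) e2 4) e1 (by positivity) (by positivity)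
      _ = 32 ^ w := by
          rw [← pow_succ, ← pow_mul, mul_comm w (4 + 1), pow_mul]
          norm_num
  have e4 : (w : ℝ) ^ 2 * (w + 1) ≤ 8 ^ w := by
    calc (w : ℝ) ^ 2 * (w + 1) ≤ (2 ^ w) ^ 2 * 2 ^ w :=
          mul_le_mul (pow_le_pow_left₀ (by linarith) e2 2) e1 (by positivity) (by positivity)
      _ = 8 ^ w := by
          rw [← pow_succ, ← pow_mul, mul_comm w (2 + 1), pow_mul]
          norm_num
  -- `m`
  set D : ℝ := (10 ^ 6 * C₀ ^ 2) ^ w with hD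
  have hC2 : (1 : ℝ) ≤ C₀ ^ 2 := one_le_pow₀ hC₀
  have hDC : C₀ ^ 2 * (10 ^ 6) ^ w ≤ D := by
    rw [hD, mul_pow, mul_comm]
    refine mul_le_mul_of_nonneg_left ?_ (by positivity)
    exact le_self_pow₀ hC2 (by omega)
  have hε2 : ε ^ 2 ≤ 1 := by nlinarith
  have hε3 : ε ^ 2 ≤ ε := by nlinarith
  have hDm : D ≤ ε ^ 2 * m := by
    have := (div_le_iff₀ (by positivity)).1 hm
    linarith
  have hm0 : (0 : ℝ) ≤ m := Nat.cast_nonneg _
  have hDm1 : D ≤ m := hDm.trans (mul_le_of_le_one_left hm0 hε2)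
  have hDε : D ≤ ε * k := by
    have h2 : (1 : ℝ) ≤ m := by
      refine le_trans ?_ hDm1
      refine le_trans ?_ hDC
      have h3 : (1 : ℝ) ≤ (10 ^ 6) ^ w := one_le_pow₀ (by norm_num)
      nlinarith
    have h3 : (m : ℝ) ≤ k := by nlinarith
    calc D ≤ ε ^ 2 * m := hDm
      _ ≤ ε * m := mul_le_mul_of_nonneg_right hε3 hm0
      _ ≤ ε * k := mul_le_mul_of_nonneg_left h3 h0.le
  have hp : ∀ (u v : ℝ), 1 ≤ u → 0 ≤ v → u * v ≤ 10 ^ 6 → u * v ^ w ≤ (10 ^ 6) ^ w := by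
    intro u v hu hv huv
    calc u * v ^ w ≤ u ^ w * v ^ w :=
          mul_le_mul_of_nonneg_right (le_self_pow₀ hu (by omega)) (by positivity)
      _ = (u * v) ^ w := (mul_pow _ _ _).symm
      _ ≤ _ := pow_le_pow_left₀ (by positivity) huv w
  -- `J`
  set J : ℕ := 16 * w ^ 4 * (w + 1) * 9 ^ w + 1 with hJ
  have hJr : (J : ℝ) = 16 * (w ^ 4 * (w + 1)) * 9 ^ w + 1 := by
    rw [hJ]
    push_cast
    ring
  have hJ2 : (J : ℝ) ≤ 17 * 288 ^ w := by
    rw [hJr]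
    have h2 : (16 : ℝ) * (w ^ 4 * (w + 1)) * 9 ^ w ≤ 16 * 32 ^ w * 9 ^ w :=
      mul_le_mul_of_nonneg_right (mul_le_mul_of_nonneg_left e3 (by norm_num)) (by positivity)
    have h3 : (16 : ℝ) * 32 ^ w * 9 ^ w = 16 * 288 ^ w := by
      rw [mul_assoc, ← mul_pow]
      norm_num
    have h4 : (1 : ℝ) ≤ 288 ^ w := one_le_pow₀ (by norm_num)
    linarith
  set ρ : ℝ := ε / (8 * 3 ^ w) with hρ
  have hρ0 : 0 < ρ := by positivity
  have h3w1 : (1 : ℝ) ≤ 3 ^ w := one_le_pow₀ (by norm_num)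
  refine ⟨J, ρ, hρ0, ?_, ?_, ?_, ?_, ?_, ?_, ?_, ?_, ?_⟩
  · rw [hρ, div_le_one (by positivity)]
    linarith
  · have h2 : 1 ≤ w ^ 4 := Nat.one_le_pow _ _ hw
    have h3 : 1 ≤ 9 ^ w := Nat.one_le_pow _ _ (by norm_num)
    rw [hJ]
    calc w + 1 = 1 * (w + 1) * 1 := by ring
      _ ≤ (16 * w ^ 4) * (w + 1) * 9 ^ w :=
        Nat.mul_le_mul (Nat.mul_le_mul_right _ (by omega)) h3
      _ ≤ _ := Nat.le_succ _
  · rw [hρ]
    refine div_le_div_of_nonneg_left h0.le (by positivity) ?_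
    have h2 : (2 : ℝ) ^ w ≤ 3 ^ w := pow_le_pow_left₀ (by norm_num) (by norm_num) w
    linarith
  · refine le_trans ?_ (hDC.trans hDm1)
    have h2 : (J : ℝ) * 2 ^ w ≤ 17 * 576 ^ w := by
      calc (J : ℝ) * 2 ^ w ≤ 17 * 288 ^ w * 2 ^ w := mul_le_mul_of_nonneg_right hJ2 (by positivity)
        _ = 17 * 576 ^ w := by
          rw [mul_assoc, ← mul_pow]
          norm_num
    have h3 := hp 17 576 (by norm_num) (by norm_num) (by norm_num)
    refine mul_le_mul ?_ (h2.trans h3) (by positivity) (by positivity)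
    nlinarith
  · refine le_trans ?_ hm
    have h2 : C₀ / ρ = 8 * C₀ * 3 ^ w / ε := by
      rw [hρ]
      field_simp
    have h3 : log (C₀ / ρ) ≤ 8 * C₀ * 3 ^ w / ε := by
      rw [← h2]
      have := log_le_sub_one_of_pos (show 0 < C₀ / ρ by positivity)
      linarith
    have h4 : (J : ℝ) + log (C₀ / ρ) ≤ 25 * C₀ * 288 ^ w / ε := by
      have h5 : (J : ℝ) ≤ 17 * C₀ * 288 ^ w / ε := by
        rw [le_div_iff₀ h0]
        have h7 : (0 : ℝ) ≤ J := Nat.cast_nonneg _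
        calc (J : ℝ) * ε ≤ J := mul_le_of_le_one_right h7 h1
          _ ≤ 17 * 288 ^ w := hJ2
          _ ≤ 17 * C₀ * 288 ^ w := by
            refine mul_le_mul_of_nonneg_right ?_ (by positivity)
            linarith
      have h6 : 8 * C₀ * 3 ^ w / ε ≤ 8 * C₀ * 288 ^ w / ε := by
        refine div_le_div_of_nonneg_right ?_ h0.le
        refine mul_le_mul_of_nonneg_left ?_ (by positivity)
        exact pow_le_pow_left₀ (by norm_num) (by norm_num) w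
      have h7 : 17 * C₀ * 288 ^ w / ε + 8 * C₀ * 288 ^ w / ε = 25 * C₀ * 288 ^ w / ε := by ring
      linarith
    calc C₀ * (J + log (C₀ / ρ)) / ρ ≤ C₀ * (25 * C₀ * 288 ^ w / ε) / ρ := by
          refine div_le_div_of_nonneg_right ?_ hρ0.le
          exact mul_le_mul_of_nonneg_left h4 (by linarith)
      _ = C₀ ^ 2 * (200 * (288 ^ w * 3 ^ w)) / ε ^ 2 := by
          rw [hρ]
          field_simp
          ring
      _ = C₀ ^ 2 * (200 * 864 ^ w) / ε ^ 2 := by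
          rw [← mul_pow]
          norm_num
      _ ≤ D / ε ^ 2 := by
          refine div_le_div_of_nonneg_right ?_ (by positivity)
          refine le_trans ?_ hDC
          exact mul_le_mul_of_nonneg_left (hp 200 864 (by norm_num) (by norm_num) (by norm_num)) (by positivity)
  · rw [hJr]
    push_cast
    have h2 : (16 * ((w : ℝ) ^ 4 * (w + 1)) * 9 ^ w + 1) * (9 ^ w)⁻¹ ≤
        (16 * ((w : ℝ) ^ 4 * (w + 1)) * 9 ^ w + 1) * b ^ 2 :=
      mul_le_mul_of_nonneg_left hb2 (by positivity)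
    refine lt_of_lt_of_le ?_ h2
    have h3 : (0 : ℝ) < 9 ^ w := by positivity
    have h4 : (16 * ((w : ℝ) ^ 4 * (w + 1)) * 9 ^ w + 1) * (9 ^ w)⁻¹ =
        16 * ((w : ℝ) ^ 2) ^ 2 * (w + 1) + (9 ^ w)⁻¹ := by
      field_simp
    rw [h4]
    have : (0 : ℝ) < (9 ^ w)⁻¹ := by positivity
    linarith
  · have h2 : 4 * ρ = ε / 2 * (3 ^ w)⁻¹ := by
      rw [hρ]
      field_simp
      ring
    rw [h2]
    exact mul_le_mul_of_nonneg_left hb1 (by positivity)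
  · push_cast
    have hk0 : (0 : ℝ) ≤ k := Nat.cast_nonneg _
    refine le_trans ?_ (mul_le_mul_of_nonneg_left hb2 (by positivity : (0 : ℝ) ≤ ε / 2 * k))
    rw [← div_eq_mul_inv, le_div_iff₀ (by positivity)]
    have h2 : 8 * (w : ℝ) ^ 2 * (w + 1) * 9 ^ w ≤ 8 * 72 ^ w := by
      calc 8 * (w : ℝ) ^ 2 * (w + 1) * 9 ^ w = 8 * ((w : ℝ) ^ 2 * (w + 1)) * 9 ^ w := by ring
        _ ≤ 8 * 8 ^ w * 9 ^ w :=
          mul_le_mul_of_nonneg_right (mul_le_mul_of_nonneg_left e4 (by norm_num)) (by positivity)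
        _ = 8 * 72 ^ w := by
          rw [mul_assoc, ← mul_pow]
          norm_num
    have h3 := hp 16 72 (by norm_num) (by norm_num) (by norm_num)
    have h4 : (10 ^ 6 : ℝ) ^ w ≤ D := by
      refine le_trans ?_ hDC
      exact le_mul_of_one_le_left (by positivity) hC2
    linarith
  · have hk0 : (0 : ℝ) ≤ k := Nat.cast_nonneg _
    have h2 : ε / 2 * (3 ^ w)⁻¹ * k ≤ ε / 2 * b * k :=
      mul_le_mul_of_nonneg_right (mul_le_mul_of_nonneg_left hb1 (by positivity)) hk0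
    refine le_trans ?_ h2
    have h3 := hp 8 3 (by norm_num) (by norm_num) (by norm_num)
    have h4 : (10 ^ 6 : ℝ) ^ w ≤ D := by
      refine le_trans ?_ hDC
      exact le_mul_of_one_le_left (by positivity) hC2
    have h5 : ε / 2 * (3 ^ w)⁻¹ * k = ε * k / (2 * 3 ^ w) := by
      field_simp
    rw [h5, le_div_iff₀ (by positivity)]
    linarith

end Pool.Agent.Helper96.PH
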