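import Pool.Agent.Helper96.PH.Final
import Pool.Agent.Helper96.PH.UniNum
import Pool.Agent.Helper6.PQ.Final

/-!
# The theorem with `w ^ 2` queries
-/

namespace Pool.Agent.Helper96.PH

open Pool.Agent.Helper19.NF Pool.Agent.Helper74.NW Pool.Agent.Helper74.NE
open Pool.Agent.Helper74.NS (Expands)
open Pool.Agent.Helper6.PQ (GCut tr tr_le gcut_of_rare)

/-- The theorem. -/
theorem uni : ∃ C : ℝ, 1 ≤ C ∧ ∀ (ε : ℝ) (w a m : ℕ) [NeZero m], 0 < ε → ε ≤ 1 → 1 ≤ w → C ≤ a → C ^ w / ε ^ 2 ≤ m →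
    ∃ g : Fin 15 → Equiv.Perm (Fin (8 * a * (w + 1))),
      ∀ (B : Type) [AddCommGroup B] [Fintype B] [DecidableEq B] (x0 : Fin (8 * a * (w + 1)) × Fin m → B),
      Function.Injective x0 → C * (a ^ 2 * (w + 1) * m : ℝ) ^ 2 ≤ Fintype.card B →
        -- the computations which can be cut
        (∀ l : List B, ((∃ X : Finset B, ε * Fintype.card B ≤ X.card ∧ ∀ b ∈ X, l.count b ≤ w) ∨
            l.length ≤ (w + 1) * win ε w (Fintype.card B)) → Cut (win ε w (Fintype.card B)) (w + 1) l) ∧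
        -- nondeterministic programs which are never wrong
        (∀ (S : ℕ) (P : NProg B ((Fin 15 × Fin m → B) × ZMod 2) (ZMod 2) S), S ≤ 2 ^ a →
          (∀ J l z, P.Ends J l z → z = out g x0 a J) →
          100 * Nat.card {J : B → (Fin 15 × Fin m → B) × ZMod 2 // (∃ l z, P.Ends J l z) ∧
              ∀ l z, P.Shortest J l z →
                (∃ X : Finset B, ε * Fintype.card B ≤ X.card ∧ ∀ b ∈ X, l.count b ≤ w ^ 2) ∨
                Cut (win ε w (Fintype.card B)) (w + 1) l} ≤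
            Nat.card (B → (Fin 15 × Fin m → B) × ZMod 2)) ∧
        -- unambiguous programs
        (∀ (S : ℕ) (P : NProg B ((Fin 15 × Fin m → B) × ZMod 2) (ZMod 2) S), S ≤ 2 ^ a → Unamb P →
          (Nat.card {J : B → (Fin 15 × Fin m → B) × ZMod 2 // ∃ l, P.Ends J l (out g x0 a J) ∧
              Cut (win ε w (Fintype.card B)) (w + 1) l} : ℝ) ≤
            Nat.card {J : B → (Fin 15 × Fin m → B) × ZMod 2 // ∃ l z, P.Ends J l z ∧
              Cut (win ε w (Fintype.card B)) (w + 1) l} / 2 +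
            Nat.card (B → (Fin 15 × Fin m → B) × ZMod 2) / 100) ∧
        -- nondeterministic pushdown programs which are never wrong
        (∀ (Q Γ : Type) [Fintype Q] (b : ℕ) (P : NPProg B ((Fin 15 × Fin m → B) × ZMod 2) (ZMod 2) Q Γ),
          (2 * Fintype.card Q ^ 2 + 2) ^ (b + 2) ≤ 2 ^ a → (∀ J l n z, P.Ends J l n z → z = out g x0 a J) →
          100 * Nat.card {J : B → (Fin 15 × Fin m → B) × ZMod 2 // (∃ l n z, P.Ends J l n z ∧ n ≤ 2 ^ b) ∧
              ∀ l n z, P.Ends J l n z →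
                ∃ X : Finset B, ε * Fintype.card B ≤ X.card ∧ ∀ c ∈ X, l.count c ≤ w ^ 2} ≤
            Nat.card (B → (Fin 15 × Fin m → B) × ZMod 2)) ∧
        -- the pushdown program
        (∃ (Q Γ : Type) (_ : Finite Q) (_ : Finite Γ) (P : PProg B ((Fin 15 × Fin m → B) × ZMod 2) (ZMod 2) Q Γ),
          Nat.card Q ≤ Fintype.card B ^ 3 ∧ Nat.card Γ ≤ Fintype.card B ^ 3 ∧
          ∀ J, P.Outputs J (out g x0 a J) ∧ Nat.card {b // P.Asks J b} ^ 2 ≤ Fintype.card B) ∧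
        -- the program without store
        ∃ (S : ℕ) (P : NProg B ((Fin 15 × Fin m → B) × ZMod 2) (ZMod 2) S),
          S ≤ Fintype.card B ^ (40 * a * (w + 1) * m) ∧ Det P ∧
          ∀ J, (∃ l, P.Ends J l (out g x0 a J)) ∧
            ∀ l z, P.Ends J l z → z = out g x0 a J ∧ l.length ^ 2 ≤ Fintype.card B := by
  classical
  obtain ⟨C₀, hC₀, herr⟩ := exists_const
  obtain ⟨C₁, hC₁, hnum⟩ := Pool.Agent.Helper70.PQ.numbers
  set K : ℝ := C₀ + C₁ with hK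
  have hK2 : C₀ ≤ K := by linarith
  have hK3 : C₁ ≤ K := by linarith
  have hKC0 : C₀ ^ 2 ≤ K ^ 2 := pow_le_pow_left₀ (by linarith) hK2 2
  have hKC1 : C₁ ^ 2 ≤ K ^ 2 := pow_le_pow_left₀ (by linarith) hK3 2
  have hK1 : (1 : ℝ) ≤ K ^ 2 := one_le_pow₀ (by linarith)
  refine ⟨10 ^ 6 * K ^ 2, by linarith, fun ε w a m _ h0 h1 hw ha hm => ?_⟩
  have hC1 : (1 : ℝ) ≤ C₀ ^ 2 := one_le_pow₀ hC₀
  have ha1 : (1000 : ℝ) ≤ a := by linarith
  have ha2 : 1 ≤ a := by
    have : 1000 ≤ a := by exact_mod_cast ha1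
    omega
  have hD : (8 * C₀ ^ 2 * 4) ^ w ≤ (10 ^ 6 * K ^ 2) ^ w := pow_le_pow_left₀ (by positivity) (by linarith) w
  have hD2 : 8 * C₀ ^ 2 * 4 ^ w ≤ (8 * C₀ ^ 2 * 4) ^ w := by
    rw [mul_pow]
    refine mul_le_mul_of_nonneg_right ?_ (by positivity)
    exact le_self_pow₀ (by linarith) (by omega)
  have hD3 : (10 ^ 6 * C₁ ^ 2) ^ w ≤ (10 ^ 6 * K ^ 2) ^ w := pow_le_pow_left₀ (by positivity) (by linarith) w
  have hD4 : (10 ^ 6 : ℝ) ≤ (10 ^ 6 * K ^ 2) ^ w := by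
    refine le_trans ?_ (le_self_pow₀ (by linarith) (by omega : w ≠ 0))
    linarith
  have hm' : 8 * C₀ ^ 2 * 4 ^ w / ε ^ 2 ≤ m :=
    (div_le_div_of_nonneg_right (hD2.trans hD) (by positivity)).trans hm
  have hm'' : (10 ^ 6 * C₁ ^ 2) ^ w / ε ^ 2 ≤ m := (div_le_div_of_nonneg_right hD3 (by positivity)).trans hm
  have hm1 : (1000 : ℝ) ≤ m := by
    refine le_trans ?_ hm
    rw [le_div_iff₀ (by positivity)]
    have h3 : ε ^ 2 ≤ 1 := by nlinarith
    linarith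
  obtain ⟨g, hg⟩ := Pool.Agent.Helper84.PH.exists_perms a (w + 1) ha2 (by omega)
  refine ⟨g, fun B _ _ _ x0 hx0 hk => ?_⟩
  set k := Fintype.card B with hkB
  have hx2 : (0 : ℝ) ≤ (a ^ 2 * (w + 1) * m : ℝ) ^ 2 := by positivity
  have hk' : 8 * C₀ ^ 2 * (a ^ 2 * (w + 1) * m : ℝ) ^ 2 ≤ k :=
    (mul_le_mul_of_nonneg_right (by linarith) hx2).trans hk
  have hk1 : 1000 * (a ^ 2 * (w + 1) * m : ℝ) ^ 2 ≤ k :=
    (mul_le_mul_of_nonneg_right (by linarith) hx2).trans hk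
  have hk2 : C₁ * (a * (a * (w + 1) * m)) ^ 2 ≤ k := by
    have h2 : (a * (a * (w + 1) * m) : ℝ) ^ 2 = (a ^ 2 * (w + 1) * m : ℝ) ^ 2 := by ring
    rw [h2]
    refine (mul_le_mul_of_nonneg_right ?_ hx2).trans hk
    nlinarith
  have hmk : (m : ℝ) ^ 2 ≤ k := by
    refine le_trans ?_ hk1
    have h2 : (m : ℝ) ≤ a ^ 2 * (w + 1) * m := by
      have h3 : (1 : ℝ) ≤ a ^ 2 * (w + 1) := by
        have : (0 : ℝ) ≤ w := Nat.cast_nonneg _
        nlinarith
      nlinarith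
    have h3 : (m : ℝ) ^ 2 ≤ (a ^ 2 * (w + 1) * m : ℝ) ^ 2 := pow_le_pow_left₀ (by linarith) h2 2
    linarith
  obtain ⟨-, -, -, -, -, hrk⟩ := params C₀ hC₀ h0 h1 (by linarith) hm' hk'
  obtain ⟨J, ρ, hρ0, hρ1, hwJ, hρw, q1, q2, q3, q4, q5, q6⟩ := uni_params C₁ hC₁ h0 h1 hw hm'' hmk
  obtain ⟨u1, u2, u3, u4, u5, u6⟩ := upper ha1 hm1 hk1
  have hT : (win ε w k : ℝ) ≤ (1 - ε / (w + 2)) * Nat.card B := by
    rw [Nat.card_eq_fintype_card, ← hkB]
    exact win_le h1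
  have hn : (w + 1) * a ≤ 8 * a * (w + 1) := by
    calc (w + 1) * a = 1 * (a * (w + 1)) := by ring
      _ ≤ 8 * (a * (w + 1)) := Nat.mul_le_mul_right _ (by norm_num)
      _ = 8 * a * (w + 1) := by ring
  have hε' : (0 : ℝ) ≤ ε / (w + 2) := by positivity
  -- groups
  have hβ : (0 : ℝ) < (1 - 1 / (w + 1 : ℝ)) ^ (w ^ 2) ∧ (1 - 1 / (w + 1 : ℝ)) ^ (w ^ 2) ≤ 1 := by
    have h2 : (0 : ℝ) < w + 1 := by positivity
    have h3 : (1 : ℝ) ≤ w := by exact_mod_cast hw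
    have h4 : 1 / (w + 1 : ℝ) < 1 := by
      rw [div_lt_one h2]
      linarith
    have h5 : 0 < 1 / (w + 1 : ℝ) := by positivity
    exact ⟨pow_pos (by linarith) _, pow_le_one₀ (by linarith) (by linarith)⟩
  have hrare : ∀ (l : List B) (X : Finset B), ε * k ≤ X.card + 1 →
      (∀ b ∈ X, l.count b ≤ w ^ 2) → GCut (tr ρ k) (w + 1) J l := by
    intro l X hX hl
    have h5 : ε / 2 * k ≤ X.card := by
      have h6 : ε / 2 * (1 - 1 / (w + 1 : ℝ)) ^ (w ^ 2) * k ≤ ε / 2 * 1 * k := by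
        refine mul_le_mul_of_nonneg_right ?_ (Nat.cast_nonneg _)
        exact mul_le_mul_of_nonneg_left hβ.2 (by linarith)
      linarith
    exact gcut_of_rare (C := B) (by linarith : 0 < ε / 2) hw hρ0 q3 q4 q5 q6 l X h5 hl
  have hcut : ∀ l : List B, Cut (win ε w k) (w + 1) l → GCut (tr ρ k) (w + 1) J l := by
    intro l hl
    refine gcut_of_cut hl ?_ (Nat.succ_pos _) hwJ
    unfold win tr
    refine Nat.floor_mono ?_
    refine mul_le_mul_of_nonneg_right ?_ (Nat.cast_nonneg _)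
    linarith
  have hTρ : (tr ρ k : ℝ) ≤ (1 - ρ) * Nat.card B := by
    rw [Nat.card_eq_fintype_card, ← hkB]
    exact tr_le hρ1
  have hN : ∀ (S : ℕ) (P : NProg B ((Fin 15 × Fin m → B) × ZMod 2) (ZMod 2) S), S ≤ 2 ^ a →
      (∀ J l z, P.Ends J l z → z = out g x0 a J) →
      100 * Nat.card {I : B → (Fin 15 × Fin m → B) × ZMod 2 // (∃ l z, P.Ends I l z) ∧
          ∀ l z, P.Shortest I l z → GCut (tr ρ k) (w + 1) J l} ≤
        Nat.card (B → (Fin 15 × Fin m → B) × ZMod 2) := by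
    intro S P hS hP
    have h2 := Pool.Agent.Helper6.PQ.sound_main (by rw [ZMod.card]) P g x0 hx0 (T := tr ρ k) (w := w) (J := J)
      hρ0.le hTρ ha2 hg hS hn hP
    have h3 := Pool.Agent.Helper6.PQ.err_le hnum B hkB.symm hρ0 hρ1 hwJ q1 q2 (by nlinarith) hk2 hS
    have h4 : (0 : ℝ) ≤ Nat.card (B → (Fin 15 × Fin m → B) × ZMod 2) := Nat.cast_nonneg _
    have h5 := h2.trans (mul_le_mul_of_nonneg_right h3 h4)
    have h7 : (100 : ℝ) * Nat.card {I : B → (Fin 15 × Fin m → B) × ZMod 2 // (∃ l z, P.Ends I l z) ∧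
        ∀ l z, P.Shortest I l z → GCut (tr ρ k) (w + 1) J l} ≤
        Nat.card (B → (Fin 15 × Fin m → B) × ZMod 2) := by linarith
    exact_mod_cast h7
  refine ⟨?_, ?_, ?_, ?_, ?_, ?_⟩
  · rintro l (⟨X, hX, hl⟩ | hl)
    · exact cut_of_rare h0 h1 hrk l X (hX.trans (by linarith)) hl
    · exact Pool.Agent.Helper6.PH.cut_of_length l hl
  · intro S P hS hP
    refine le_trans (Nat.mul_le_mul_left _ ?_) (hN S P hS hP)
    refine Nat.card_le_card_of_injective (fun I => ⟨I.1, I.2.1, fun l z h => ?_⟩) ?_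
    · rcases I.2.2 l z h with ⟨X, hX, hl⟩ | hl
      · exact hrare l X (by linarith) hl
      · exact hcut l hl
    · intro I I' h
      exact Subtype.ext (congrArg (fun z => z.1) h)
  · intro S P hS hP
    have h2 := Pool.Agent.Helper4.PH.unamb_main P hP g x0 hx0 (T := win ε w k) (w := w) hε' hT ha2 hg hS hn
    have h3 := herr ε w a m k S B h0 h1 (by linarith) hm' hkB hk' hS
    have h4 : (0 : ℝ) ≤ Nat.card (B → (Fin 15 × Fin m → B) × ZMod 2) := Nat.cast_nonneg _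
    have h5 := mul_le_mul_of_nonneg_right h3 h4
    rw [ZMod.card] at h2
    push_cast at h2
    linarith
  · intro Q Γ _ b P hQ hP
    obtain ⟨S, hS, P', hsim⟩ := Pool.Agent.Helper1.NW.sim P (0 : B) b
    refine le_trans (Nat.mul_le_mul_left _ ?_) (hN S P' (hS.trans hQ) fun J l z hl => ?_)
    · refine Nat.card_le_card_of_injective (fun J => ⟨J.1, ?_, ?_⟩) ?_
      · obtain ⟨l, n, z, hl, hn'⟩ := J.2.1
        obtain ⟨l', hl', -⟩ := (hsim J.1).1 l n z hl hn'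
        exact ⟨_, z, hl'⟩
      · intro l' z hl'
        obtain ⟨l, n, hl, hperm⟩ := (hsim J.1).2 l' z hl'.1
        obtain ⟨X, hX, hX2⟩ := J.2.2 l n z hl
        refine hrare l' (X.erase 0) ?_ fun c hc => ?_
        · refine hX.trans ?_
          have h2 : X.card ≤ (X.erase 0).card + 1 := by
            have := Finset.pred_card_le_card_erase (s := X) (a := (0 : B))
            omega
          exact_mod_cast h2
        · rw [hperm.count_eq, List.count_cons_of_ne (Finset.ne_of_mem_erase hc).symm]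
          exact hX2 c (Finset.mem_of_mem_erase hc)
      · intro J J' h
        exact Subtype.ext (congrArg (fun z => z.1) h)
    · obtain ⟨l', n, hl', -⟩ := (hsim J).2 l z hl
      exact hP J l' n z hl'
  · obtain ⟨Q, Γ, hQ, hΓ, P, h2, h3, h4⟩ := Pool.Agent.Helper60.PH.pushdown_program (G := ZMod 2) g x0 a
      (by norm_num) (Nat.one_le_iff_ne_zero.mpr (by positivity))
    rw [ZMod.card, ← hkB] at h2 h3
    refine ⟨Q, Γ, hQ, hΓ, P, h2.trans u1, h3.trans u2, fun J => ⟨(h4 J).1, ?_⟩⟩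
    exact (Nat.pow_le_pow_left (h4 J).2 2).trans u3
  · obtain ⟨S, P, h2, h3, h4⟩ := Pool.Agent.Helper84.PH.row_program (G := ZMod 2) g x0 a (by rw [ZMod.card]; omega)
      u4
    rw [← hkB] at h2
    refine ⟨S, P, h2.trans u5, h3, fun J => ⟨(h4 J).1, fun l z hl => ⟨(h4 J).2.1 l z hl, ?_⟩⟩⟩
    exact (Nat.pow_le_pow_left ((h4 J).2.2 l z hl) 2).trans u3

end Pool.Agent.Helper96.PH
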